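import Pool.Agent.W_0c5e58_h99.SDefs

/-!
# The area of the house

`volume (Hg) ≥ ofReal (b W / 2)`, `b W / 2 = b t + s b^2 / 4`: the part `-t < x 1 < 0`,
`|x 0 - c x 1| < b/2` (area `b t`; there `x 1 ≤ s (b/2 - |x 0|)`, because
`|x 0| ≤ b/2 + |c| |x 1|` and `s |c| ≤ 1`), and the part `0 ≤ x 1 ≤ s (b/2 - |x 0|)` (area
`s b^2/4`; there `|x 0 - c x 1| ≤ |x 0| + |c| x 1 ≤ b/2`).  Areas: slice at height `r = x 1`: the
slice of the first part is the interval `(c r - b/2, c r + b/2)` of length `b`, the slice of the
second part is `[-(b/2 - r/s), b/2 - r/s]` of length `b - 2 r/s`, `0 ≤ r ≤ s b/2`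
(`∫ = b^2 s/4`).  So with `l r = ` left end, `u r = ` right end this is a `regionBetween` (functions
of `r`), `volume_regionBetween_eq_integral`, and a measure preserving map between `E2` and `ℝ × ℝ`
(as in the area files of W_0c5e58_h33, or `GVol`-style: `EuclideanSpace.volume_preserving_symm_measurableEquiv_toLp`
and `MeasureTheory.volume_preserving_finTwoArrow`).
-/

open MeasureTheory Metric Set Filter
open scoped Topology ENNReal

namespace Pool.CylS

open Pool.TC

private noncomputable def SHouse_phi : E2 → ℝ × ℝ :=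
  Prod.swap ∘ ((@MeasurableEquiv.finTwoArrow ℝ _) ∘ (MeasurableEquiv.toLp 2 (Fin 2 → ℝ)).symm)

private theorem SHouse_phi_apply (x : E2) : SHouse_phi x = (x 1, x 0) := rfl

private theorem SHouse_phi_mp : MeasurePreserving SHouse_phi volume volume :=
  Measure.measurePreserving_swap.comp ((volume_preserving_finTwoArrow ℝ).comp
    (EuclideanSpace.volume_preserving_symm_measurableEquiv_toLp (Fin 2)))

private theorem SHouse_low {t c b q s : ℝ} (P : Par t c b q s) :
    volume (regionBetween (fun r => c * r - b / 2) (fun r => c * r + b / 2) (Icc (-t) 0)) =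
      ENNReal.ofReal (b * t) := by
  have ht := P.ht
  have hb := P.hb
  have hc1 : Continuous fun r : ℝ => c * r - b / 2 := by fun_prop
  have hc2 : Continuous fun r : ℝ => c * r + b / 2 := by fun_prop
  have e := volume_regionBetween_eq_integral (μ := volume) (f := fun r => c * r - b / 2)
    (g := fun r => c * r + b / 2) (hc1.integrableOn_Icc) (hc2.integrableOn_Icc)
    (measurableSet_Icc (a := -t) (b := 0)) (fun r _ => by linarith)
  have e' : (volume : Measure (ℝ × ℝ)) = (volume : Measure ℝ).prod volume := rfl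
  rw [e', e]
  congr 1
  have e2 : ((fun r : ℝ => c * r + b / 2) - fun r : ℝ => c * r - b / 2) = fun _ => b := by
    funext r
    simp only [Pi.sub_apply]
    ring
  rw [e2, integral_Icc_eq_integral_Ioc, ← intervalIntegral.integral_of_le (by linarith),
    intervalIntegral.integral_const]
  simp only [smul_eq_mul]
  ring

private theorem SHouse_high {t c b q s : ℝ} (P : Par t c b q s) :
    volume (regionBetween (fun r => -(b / 2 - r / s)) (fun r => b / 2 - r / s)
      (Icc 0 (s * b / 2))) = ENNReal.ofReal (s * b ^ 2 / 4) := by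
  have hb := P.hb
  have hs := P.hs
  have h0 : 0 ≤ s * b / 2 := by positivity
  have hc1 : Continuous fun r : ℝ => -(b / 2 - r / s) := by fun_prop
  have hc2 : Continuous fun r : ℝ => b / 2 - r / s := by fun_prop
  have e := volume_regionBetween_eq_integral (μ := volume) (f := fun r => -(b / 2 - r / s))
    (g := fun r => b / 2 - r / s) (hc1.integrableOn_Icc) (hc2.integrableOn_Icc)
    (measurableSet_Icc (a := 0) (b := s * b / 2)) (fun r hr => by
      have : r / s ≤ b / 2 := by
        rw [div_le_iff₀ hs]
        linarith [hr.2]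
      linarith)
  have e' : (volume : Measure (ℝ × ℝ)) = (volume : Measure ℝ).prod volume := rfl
  rw [e', e]
  congr 1
  have e2 : ((fun r : ℝ => b / 2 - r / s) - fun r : ℝ => -(b / 2 - r / s)) =
      fun r => b - (2 / s) * r := by
    funext r
    simp only [Pi.sub_apply]
    ring
  rw [e2, integral_Icc_eq_integral_Ioc, ← intervalIntegral.integral_of_le h0,
    intervalIntegral.integral_sub
      ((by fun_prop : Continuous fun _ : ℝ => b).intervalIntegrable _ _)
      ((by fun_prop : Continuous fun r : ℝ => 2 / s * r).intervalIntegrable _ _),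
    intervalIntegral.integral_const_mul, integral_id, intervalIntegral.integral_const]
  simp only [smul_eq_mul]
  field_simp
  ring

theorem Hg_vol {t c b q s : ℝ} (P : Par t c b q s) :
    ENNReal.ofReal (b * Wd t b s / 2) ≤ volume (Hg t c b s) := by
  have ht := P.ht
  have hb := P.hb
  have hs := P.hs
  have hsc := P.hsc
  set T1 : Set (ℝ × ℝ) :=
    regionBetween (fun r => c * r - b / 2) (fun r => c * r + b / 2) (Icc (-t) 0) with hT1
  set T2 : Set (ℝ × ℝ) :=
    regionBetween (fun r => -(b / 2 - r / s)) (fun r => b / 2 - r / s) (Icc 0 (s * b / 2)) with hT2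
  have hc1 : Continuous fun r : ℝ => c * r - b / 2 := by fun_prop
  have hc2 : Continuous fun r : ℝ => c * r + b / 2 := by fun_prop
  have hc3 : Continuous fun r : ℝ => -(b / 2 - r / s) := by fun_prop
  have hc4 : Continuous fun r : ℝ => b / 2 - r / s := by fun_prop
  have hm1 : MeasurableSet T1 :=
    measurableSet_regionBetween hc1.measurable hc2.measurable measurableSet_Icc
  have hm2 : MeasurableSet T2 :=
    measurableSet_regionBetween hc3.measurable hc4.measurable measurableSet_Icc
  have hae : volume (T1 ∩ T2) = 0 := by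
    have hsub : T1 ∩ T2 ⊆ ({0} : Set ℝ) ×ˢ (univ : Set ℝ) := by
      rintro ⟨r, y⟩ ⟨h1, h2⟩
      simp only [hT1, hT2, regionBetween, mem_ofPred_eq, mem_Icc] at h1 h2
      exact ⟨le_antisymm h1.1.2 h2.1.1, trivial⟩
    refine measure_mono_null hsub ?_
    have e' : (volume : Measure (ℝ × ℝ)) = (volume : Measure ℝ).prod volume := rfl
    rw [e', Measure.prod_prod]
    simp
  have hsub : SHouse_phi ⁻¹' (T1 ∪ T2) ⊆ Hg t c b s := by
    intro x hx
    rw [mem_preimage, SHouse_phi_apply] at hx
    rcases hx with hx | hx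
    · simp only [hT1, regionBetween, mem_ofPred_eq, mem_Icc, mem_Ioo] at hx
      obtain ⟨⟨h1, h2⟩, h3, h4⟩ := hx
      refine ⟨h1, abs_le.2 ⟨by linarith, by linarith⟩, ?_⟩
      have h5 : |x 0| ≤ b / 2 + |c| * (-(x 1)) := by
        have e1 : x 0 = (x 0 - c * x 1) + c * x 1 := by ring
        have e2 : |x 0 - c * x 1| ≤ b / 2 := abs_le.2 ⟨by linarith, by linarith⟩
        have e3 : |c * x 1| = |c| * (-(x 1)) := by rw [abs_mul, abs_of_nonpos h2]
        calc |x 0| = |(x 0 - c * x 1) + c * x 1| := by rw [← e1]
          _ ≤ |x 0 - c * x 1| + |c * x 1| := abs_add_le _ _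
          _ ≤ _ := by rw [e3]; linarith
      have h6 : s * |c| * (-(x 1)) ≤ 1 * (-(x 1)) :=
        mul_le_mul_of_nonneg_right hsc (by linarith)
      have h7 := mul_le_mul_of_nonneg_left h5 hs.le
      linarith
    · simp only [hT2, regionBetween, mem_ofPred_eq, mem_Icc, mem_Ioo] at hx
      obtain ⟨⟨h1, h2⟩, h3, h4⟩ := hx
      have h5 : |x 0| ≤ b / 2 - x 1 / s := abs_le.2 ⟨by linarith, by linarith⟩
      refine ⟨by linarith, ?_, ?_⟩
      · have e3 : |c * x 1| = |c| * x 1 := by rw [abs_mul, abs_of_nonneg h1]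
        have e4 : |c| * x 1 ≤ x 1 / s := by
          rw [le_div_iff₀ hs]
          have := mul_le_mul_of_nonneg_right hsc h1
          linarith
        calc |x 0 - c * x 1| ≤ |x 0| + |c * x 1| := abs_sub _ _
          _ ≤ b / 2 := by rw [e3]; linarith
      · have h6 := mul_le_mul_of_nonneg_left h5 hs.le
        have h7 : s * (x 1 / s) = x 1 := by field_simp
        rw [mul_sub, h7] at h6
        linarith
  calc ENNReal.ofReal (b * Wd t b s / 2) = ENNReal.ofReal (b * t) +
        ENNReal.ofReal (s * b ^ 2 / 4) := by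
        rw [← ENNReal.ofReal_add (by positivity) (by positivity)]
        congr 1
        unfold Wd
        ring
    _ = volume T1 + volume T2 := by rw [hT1, hT2, SHouse_low P, SHouse_high P]
    _ = volume (T1 ∪ T2) := by
        rw [← measure_union_add_inter T1 hm2, hae, add_zero]
    _ = volume (SHouse_phi ⁻¹' (T1 ∪ T2)) :=
        (SHouse_phi_mp.measure_preimage (hm1.union hm2).nullMeasurableSet).symm
    _ ≤ volume (Hg t c b s) := measure_mono hsub

end Pool.CylS
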