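import Pool.Agent.W_0c5e58_h99.SCount
import Pool.Agent.W_0c5e58_h99.SHouse
import Pool.Agent.W_0c5e58_h33.Main

/-!
# Claim S

`solid`: `h₀` from `count`, `pack` for the configuration.  With `N` the number of rods,
`volume (cyl K h) = volume K * ofReal h` (`vol_cyl`), `0 < volume K < ⊤` (`Kg_interior`,
`Kg_compact`), `volume (Hg) ≥ ofReal (b W / 2)` (`Hg_vol`):
`volume K / volume H ≤ volume K / ofReal (b W / 2) < N * (volume K * ofReal h) / ofReal (X Y Z)`
because `X Y Z < (b W / 2) h N`.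
`claimS`: `K s = Kg (1/32) 96 3 1 s`, `H s = Hg (1/32) 96 3 s` by definition; `Par` for
`0 < s < 1/100`: `96 s ≤ 1`, `3 (1/16 + 3 s / 2) < 1/4`.
-/

open MeasureTheory Metric Set Filter
open scoped Topology ENNReal

namespace Pool.CylS

open Pool.TC

theorem solid {t c b q s : ℝ} (P : Par t c b q s) : ∃ h₀ > 0, ∀ h, h₀ ≤ h →
    volume (Kg t c b q s) / volume (Hg t c b s) < packDensity (cyl (Kg t c b q s) h) := by
  obtain ⟨h₀, hh₀, H⟩ := count P
  refine ⟨h₀, hh₀, fun h hh => ?_⟩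
  obtain ⟨n, i₀, NA, M, Z, co, si, m, C, hlt⟩ := H h hh
  have hpos : 0 < h := lt_of_lt_of_le hh₀ hh
  have hb := P.hb
  have hW := P.W0
  have ht := P.ht
  have hn : (0 : ℝ) < n := Nat.cast_pos.2 C.hn
  have hKc := Kg_compact P
  have hKm : MeasurableSet (Kg t c b q s) := hKc.isClosed.measurableSet
  have hV0 : volume (Kg t c b q s) ≠ 0 :=
    (lt_of_lt_of_le (isOpen_interior.measure_pos volume (Kg_interior P))
      (measure_mono interior_subset)).ne'
  have hVt : volume (Kg t c b q s) ≠ ⊤ := hKc.measure_lt_top.ne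
  have key := pack P C
  refine lt_of_lt_of_le ?_ key
  generalize 2 * NA * M + ∑ j ∈ Finset.range n, 2 * m j = N at hlt ⊢
  have hB : 0 < (2 * t + h) * (n * Wd t b s) * Z := by
    have := C.hZ
    positivity
  generalize (2 * t + h) * (n * Wd t b s) * Z = B at hlt hB ⊢
  rw [vol_cyl hKm hpos.le]
  obtain ⟨v, hv0, hv⟩ : ∃ v : ℝ, 0 < v ∧ volume (Kg t c b q s) = ENNReal.ofReal v :=
    ⟨(volume (Kg t c b q s)).toReal, ENNReal.toReal_pos hV0 hVt, (ENNReal.ofReal_toReal hVt).symm⟩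
  have hD : 0 < b * Wd t b s / 2 := by positivity
  have h1 : volume (Kg t c b q s) / volume (Hg t c b s) ≤
      ENNReal.ofReal (v / (b * Wd t b s / 2)) := by
    rw [ENNReal.ofReal_div_of_pos hD, hv]
    exact ENNReal.div_le_div_left (Hg_vol P) _
  refine lt_of_le_of_lt h1 ?_
  have h2 : (N : ℝ≥0∞) * (volume (Kg t c b q s) * ENNReal.ofReal h) / ENNReal.ofReal B =
      ENNReal.ofReal (N * (v * h) / B) := by
    rw [ENNReal.ofReal_div_of_pos hB, ENNReal.ofReal_mul (Nat.cast_nonneg N),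
      ENNReal.ofReal_mul hv0.le, hv, ENNReal.ofReal_natCast]
  rw [h2]
  have h3 : v / (b * Wd t b s / 2) < N * (v * h) / B := by
    rw [div_lt_div_iff₀ hD hB]
    have := mul_lt_mul_of_pos_left hlt hv0
    linarith
  rw [ENNReal.ofReal_lt_ofReal_iff (lt_of_le_of_lt (by positivity) h3)]
  exact h3

theorem par {s : ℝ} (hs : 0 < s) (hs' : s < 1 / 100) : Par (1 / 32) 96 3 1 s := by
  refine ⟨by norm_num, by norm_num, by norm_num, hs, ?_, ?_⟩
  · rw [abs_of_pos (by norm_num)]
    linarith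
  · norm_num
    linarith

theorem claimS : Pool.Cyl.ClaimS := by
  intro s hs hs'
  exact solid (par hs hs')

end Pool.CylS
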