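import Pool.Agent.W_0c5e58_h99.SDefs

/-!
# Facts on the body and the house

`x ∈ Kg`: `x 1 ≤ s q`; `|x 0| ≤ P0`: if `x 1 ≤ 0` then `|x 0| ≤ b/2 + |c| |x 1| ≤ b/2 + |c| t`; if
`x 1 > 0` then `kp > 0`, so `|x 0| < b/2`.
Compact: closed (all functions continuous) and bounded (`|x 0| ≤ P0`, `|x 1| ≤ t + s q`;
`EuclideanSpace.norm_eq` or `Metric.isCompact_of_isClosed_isBounded` and a bound of the norm).
Convex: intersection of half planes: `x 1 ≤ kp b q s (x 0)` iff `x 1 ≤ s q`,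
`x 1 ≤ s (b/2 - x 0)`, `x 1 ≤ s (b/2 + x 0)`.
Interior: `(0, -t/2) + ` small ball? take the open set `{-t < x 1 < 0, |x 0| < q/...}`: if
`-t < x 1 < 0`, `|x 0 - c x 1| < b/2` and `|x 0| < b/2`, then `x ∈ Kg`; the point
`(0, -τ)` with `0 < τ < t` and `|c| τ < b/2` is there.
House: `volume (Hg) ≥ ofReal (b W / 2)`, `b W / 2 = b t + s b^2 / 4`: the part `-t < x 1 < 0`,
`|x 0 - c x 1| < b/2` (area `b t`; there `x 1 ≤ s (b/2 - |x 0|)`, because
`|x 0| ≤ b/2 + |c| |x 1|` and `s |c| ≤ 1`), and the part `0 ≤ x 1 ≤ s (b/2 - |x 0|)` (area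
`s b^2/4`; there `|x 0 - c x 1| ≤ |x 0| + |c| x 1 ≤ b/2`).  Areas of regions between graphs:
`volume_regionBetween_eq_integral` and the measure preserving map
`EuclideanSpace.volume_preserving_...` to `ℝ × ℝ` (as in the files of W_0c5e58_h33 / h61).
-/

open MeasureTheory Metric Set Filter
open scoped Topology ENNReal

namespace Pool.CylS

open Pool.TC

theorem SBody_le_kp {b q s : ℝ} (hs : 0 < s) (p r : ℝ) :
    r ≤ kp b q s p ↔ r ≤ s * q ∧ r ≤ s * (b / 2 - p) ∧ r ≤ s * (b / 2 + p) := by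
  unfold kp
  rw [mul_min_of_nonneg _ _ hs.le, le_min_iff]
  refine and_congr Iff.rfl ?_
  rcases le_total 0 p with h | h
  · rw [abs_of_nonneg h]
    constructor
    · intro h1
      have := mul_nonneg hs.le h
      exact ⟨h1, by nlinarith⟩
    · exact fun h1 => h1.1
  · rw [abs_of_nonpos h]
    have hh := mul_nonneg hs.le (neg_nonneg.2 h)
    constructor
    · intro h1
      exact ⟨by nlinarith, by nlinarith⟩
    · intro h1
      have := h1.2
      nlinarith

theorem Kg_one_le {t c b q s : ℝ} (P : Par t c b q s) {x : E2} (hx : x ∈ Kg t c b q s) :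
    x 1 ≤ s * q :=
  ((SBody_le_kp P.hs _ _).1 hx.2.2).1

theorem Kg_zero_le {t c b q s : ℝ} (P : Par t c b q s) {x : E2} (hx : x ∈ Kg t c b q s) :
    |x 0| ≤ P0 t c b := by
  obtain ⟨h1, h2, h3⟩ := hx
  unfold P0
  rcases le_or_gt (x 1) 0 with h | h
  · have e1 : |x 1| ≤ t := abs_le.2 ⟨h1, h.trans P.ht.le⟩
    have e2 : |x 0| ≤ |x 0 - c * x 1| + |c * x 1| := by
      have := abs_add_le (x 0 - c * x 1) (c * x 1)
      rwa [sub_add_cancel] at this
    rw [abs_mul] at e2
    have e3 := mul_le_mul_of_nonneg_left e1 (abs_nonneg c)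
    linarith
  · obtain ⟨-, g2, g3⟩ := (SBody_le_kp P.hs _ _).1 h3
    have k2 : 0 < b / 2 - x 0 := pos_of_mul_pos_right (h.trans_le g2) P.hs.le
    have k3 : 0 < b / 2 + x 0 := pos_of_mul_pos_right (h.trans_le g3) P.hs.le
    have k4 : 0 ≤ |c| * t := mul_nonneg (abs_nonneg c) P.ht.le
    have : |x 0| ≤ b / 2 := abs_le.2 ⟨by linarith, by linarith⟩
    linarith

theorem SBody_kp_cont (b q s : ℝ) : Continuous (kp b q s) := by
  unfold kp
  fun_prop

theorem Kg_compact {t c b q s : ℝ} (P : Par t c b q s) : IsCompact (Kg t c b q s) := by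
  have c0 : Continuous fun x : E2 => x 0 := by fun_prop
  have c1 : Continuous fun x : E2 => x 1 := by fun_prop
  refine Metric.isCompact_of_isClosed_isBounded ?_ ?_
  · refine IsClosed.inter (isClosed_le continuous_const c1) ?_
    refine IsClosed.inter (isClosed_le (c0.sub (c1.const_smul c)).abs continuous_const) ?_
    exact isClosed_le c1 ((SBody_kp_cont b q s).comp c0)
  · refine (Metric.isBounded_iff_subset_closedBall (0 : E2)).2 ⟨P0 t c b + (t + s * q), ?_⟩
    intro x hx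
    rw [mem_closedBall_zero_iff]
    have h0 := Kg_zero_le P hx
    have h1 : |x 1| ≤ t + s * q := by
      have a1 := hx.1
      have a2 := Kg_one_le P hx
      have a3 := P.ht
      have a4 := mul_pos P.hs P.hq
      exact abs_le.2 ⟨by linarith, by linarith⟩
    have h2 : ‖x‖ ^ 2 ≤ (|x 0| + |x 1|) ^ 2 := by
      rw [EuclideanSpace.norm_sq_eq, Fin.sum_univ_two]
      simp only [Real.norm_eq_abs]
      nlinarith [mul_nonneg (abs_nonneg (x 0)) (abs_nonneg (x 1))]
    have h3 : ‖x‖ ≤ |x 0| + |x 1| :=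
      (abs_le_of_sq_le_sq' h2 (by positivity)).2
    linarith

theorem Kg_convex {t c b q s : ℝ} (P : Par t c b q s) : Convex ℝ (Kg t c b q s) := by
  intro x hx y hy u v hu hv huv
  obtain ⟨x1, x2, x3⟩ := hx
  obtain ⟨y1, y2, y3⟩ := hy
  rw [SBody_le_kp P.hs] at x3 y3
  rw [abs_le] at x2 y2
  have e0 : (u • x + v • y) 0 = u * x 0 + v * y 0 := rfl
  have e1 : (u • x + v • y) 1 = u * x 1 + v * y 1 := rfl
  have key : ∀ {α β γ : ℝ}, α ≤ γ → β ≤ γ → u * α + v * β ≤ γ := by
    intro α β γ hα hβ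
    have := mul_le_mul_of_nonneg_left hα hu
    have := mul_le_mul_of_nonneg_left hβ hv
    have e : γ = u * γ + v * γ := by rw [← add_mul, huv, one_mul]
    linarith
  refine ⟨?_, ?_, ?_⟩
  · rw [e1]
    have := key (neg_le_neg x1) (neg_le_neg y1)
    linarith
  · rw [e0, e1, abs_le]
    constructor
    · have := key (neg_le_neg x2.1) (neg_le_neg y2.1)
      linarith
    · have := key x2.2 y2.2
      linarith
  · rw [e0, e1, SBody_le_kp P.hs]
    refine ⟨key x3.1 y3.1, ?_, ?_⟩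
    · have h1 : x 1 + s * x 0 ≤ s * (b / 2) := by linarith [x3.2.1]
      have h2 : y 1 + s * y 0 ≤ s * (b / 2) := by linarith [y3.2.1]
      have := key h1 h2
      linarith
    · have h1 : x 1 - s * x 0 ≤ s * (b / 2) := by linarith [x3.2.2]
      have h2 : y 1 - s * y 0 ≤ s * (b / 2) := by linarith [y3.2.2]
      have := key h1 h2
      linarith

theorem Kg_interior {t c b q s : ℝ} (P : Par t c b q s) : (interior (Kg t c b q s)).Nonempty := by
  have c0 : Continuous fun x : E2 => x 0 := by fun_prop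
  have c1 : Continuous fun x : E2 => x 1 := by fun_prop
  have hb := P.hb
  have ht := P.ht
  have hc : 0 < |c| + 1 := by positivity
  set τ : ℝ := min (t / 2) (b / (4 * (|c| + 1))) with hτ
  have hτ0 : 0 < τ := lt_min (by linarith) (by positivity)
  have hτ1 : τ ≤ t / 2 := min_le_left _ _
  have hτ2 : |c| * τ < b / 2 := by
    have h1 : τ ≤ b / (4 * (|c| + 1)) := min_le_right _ _
    rw [le_div_iff₀ (by positivity)] at h1
    nlinarith [abs_nonneg c]
  set U : Set E2 := {x | (-t < x 1 ∧ x 1 < 0) ∧ (|x 0 - c * x 1| < b / 2 ∧ |x 0| < b / 2)} with hU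
  have hUo : IsOpen U := by
    refine IsOpen.inter (IsOpen.inter (isOpen_lt continuous_const c1) (isOpen_lt c1
      continuous_const)) (IsOpen.inter (isOpen_lt (c0.sub (c1.const_smul c)).abs
      continuous_const) (isOpen_lt c0.abs continuous_const))
  have hUK : U ⊆ Kg t c b q s := by
    rintro x ⟨⟨h1, h2⟩, h3, h4⟩
    refine ⟨h1.le, h3.le, h2.le.trans ?_⟩
    exact mul_nonneg P.hs.le (le_min P.hq.le (by linarith))
  refine ⟨Pool.Cyl.pt 0 (-τ), mem_interior.2 ⟨U, hUK, hUo, ⟨⟨?_, ?_⟩, ?_, ?_⟩⟩⟩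
  · rw [Pool.Cyl.pt_one]
    linarith
  · rw [Pool.Cyl.pt_one]
    linarith
  · rw [Pool.Cyl.pt_one, Pool.Cyl.pt_zero]
    have : |0 - c * -τ| = |c| * τ := by
      rw [zero_sub, mul_neg, neg_neg, abs_mul, abs_of_pos hτ0]
    rwa [this]
  · rw [Pool.Cyl.pt_zero, abs_zero]
    linarith

end Pool.CylS
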