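import Pool.Agent.W_0c5e58_h99.SDefs

/-!
# The box

`bxx_vol`: `bxx X Y Z` is the preimage of `Set.pi univ (Icc ..)` under the measure preserving
measurable equivalence (`EuclideanSpace.volume_preserving_symm_measurableEquiv_toLp`,
`Real.volume_Icc_pi`), see also `PBox.lean` of W_0c5e58_h61.
`bxx_compact`: closed and bounded; or the image of the compact set `Set.pi univ (Icc ..)` under the
homeomorphism `WithLp.toLp 2`.  `bxx_interior`: the set with strict inequalities is open.
-/

open MeasureTheory Metric Set Filter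
open scoped Topology ENNReal

namespace Pool.CylS

open Pool.TC

theorem SBoxA_eq (X Y Z : ℝ) :
    bxx X Y Z = (fun v : E3 => WithLp.ofLp v) ⁻¹' (Icc (fun _ => 0) ![X, Y, Z]) := by
  ext x
  constructor
  · rintro ⟨h1, h2, h3, h4, h5, h6⟩
    refine ⟨fun i => ?_, fun i => ?_⟩
    · fin_cases i
      · exact h1
      · exact h3
      · exact h5
    · fin_cases i
      · exact h2
      · exact h4
      · exact h6
  · rintro ⟨h1, h2⟩
    exact ⟨h1 0, h2 0, h1 1, h2 1, h1 2, h2 2⟩

theorem bxx_vol {X Y Z : ℝ} (hX : 0 ≤ X) (hY : 0 ≤ Y) (hZ : 0 ≤ Z) :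
    volume (bxx X Y Z) = ENNReal.ofReal (X * Y * Z) := by
  rw [SBoxA_eq, (PiLp.volume_preserving_ofLp (Fin 3)).measure_preimage
    measurableSet_Icc.nullMeasurableSet, Real.volume_Icc_pi, Fin.prod_univ_three,
    ← ENNReal.ofReal_mul (by simpa using hX), ← ENNReal.ofReal_mul (by
      apply mul_nonneg
      · simpa using hX
      · simpa using hY)]
  simp

theorem bxx_compact (X Y Z : ℝ) : IsCompact (bxx X Y Z) := by
  rw [SBoxA_eq]
  have h := (PiLp.homeomorph 2 (fun _ : Fin 3 => ℝ)).isClosedEmbedding.isCompact_preimage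
    (isCompact_Icc (a := (fun _ => 0 : Fin 3 → ℝ)) (b := ![X, Y, Z]))
  exact h

theorem bxx_convex (X Y Z : ℝ) : Convex ℝ (bxx X Y Z) := by
  rintro x ⟨h1, h2, h3, h4, h5, h6⟩ y ⟨g1, g2, g3, g4, g5, g6⟩ a b ha hb hab
  have e : ∀ i, (a • x + b • y) i = a * x i + b * y i := fun i => rfl
  refine ⟨?_, ?_, ?_, ?_, ?_, ?_⟩ <;> rw [e]
  · positivity
  · nlinarith
  · positivity
  · nlinarith
  · positivity
  · nlinarith

theorem bxx_interior {X Y Z : ℝ} (hX : 0 < X) (hY : 0 < Y) (hZ : 0 < Z) :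
    (interior (bxx X Y Z)).Nonempty := by
  have ho : IsOpen {x : E3 | 0 < x 0 ∧ x 0 < X ∧ 0 < x 1 ∧ x 1 < Y ∧ 0 < x 2 ∧ x 2 < Z} := by
    have c0 : Continuous fun x : E3 => x 0 := by fun_prop
    have c1 : Continuous fun x : E3 => x 1 := by fun_prop
    have c2 : Continuous fun x : E3 => x 2 := by fun_prop
    exact (isOpen_lt continuous_const c0).inter ((isOpen_lt c0 continuous_const).inter
      ((isOpen_lt continuous_const c1).inter ((isOpen_lt c1 continuous_const).inter
      ((isOpen_lt continuous_const c2).inter (isOpen_lt c2 continuous_const)))))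
  refine ⟨WithLp.toLp 2 ![X / 2, Y / 2, Z / 2], interior_maximal ?_ ho ?_⟩
  · rintro x ⟨h1, h2, h3, h4, h5, h6⟩
    exact ⟨h1.le, h2.le, h3.le, h4.le, h5.le, h6.le⟩
  · refine ⟨?_, ?_, ?_, ?_, ?_, ?_⟩
    · show 0 < X / 2
      linarith
    · show X / 2 < X
      linarith
    · show 0 < Y / 2
      linarith
    · show Y / 2 < Y
      linarith
    · show 0 < Z / 2
      linarith
    · show Z / 2 < Z
      linarith

end Pool.CylS
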