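import Pool.Agent.W_0c5e58_h99.SDefs

/-!
# Boxes tile space

`bxx_tiles`: the translates of the box by the vectors `(X a, Y b, Z c)`, `a b c : ℤ`, tile `E3`:
a point `x` is in the translate with `a = ⌊x 0 / X⌋` etc.; different translates are separated by a
plane: use `sep` with `f x = x k - const`, `e = EuclideanSpace.single k 1` (if `a < a'`, then the
first one is in `x 0 ≤ X (a + 1)`, the second in `x 0 ≥ X (a + 1)`).  Translations as isometries: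
`IsometryEquiv.addRight`.  The definition `Tiles` is in W_0c5e58_h61/GDefs.lean (model: `tiles_cyl`
in GTile.lean).
-/

open MeasureTheory Metric Set Filter
open scoped Topology ENNReal

namespace Pool.CylS

open Pool.TC

/-- the translation -/
private noncomputable def tr (X Y Z : ℝ) (u : ℤ × ℤ × ℤ) : E3 ≃ᵢ E3 :=
  IsometryEquiv.addRight (!₂[X * (u.1 : ℝ), Y * (u.2.1 : ℝ), Z * (u.2.2 : ℝ)] : E3)

private theorem tr_apply (X Y Z : ℝ) (u : ℤ × ℤ × ℤ) (x : E3) :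
    tr X Y Z u x = x + !₂[X * (u.1 : ℝ), Y * (u.2.1 : ℝ), Z * (u.2.2 : ℝ)] := rfl

private theorem mem_tr {X Y Z : ℝ} (u : ℤ × ℤ × ℤ) {x : E3} (hx : x ∈ tr X Y Z u '' bxx X Y Z) :
    (X * (u.1 : ℝ) ≤ x 0 ∧ x 0 ≤ X * ((u.1 : ℝ) + 1)) ∧
      (Y * (u.2.1 : ℝ) ≤ x 1 ∧ x 1 ≤ Y * ((u.2.1 : ℝ) + 1)) ∧
      (Z * (u.2.2 : ℝ) ≤ x 2 ∧ x 2 ≤ Z * ((u.2.2 : ℝ) + 1)) := by
  obtain ⟨y, ⟨h1, h2, h3, h4, h5, h6⟩, rfl⟩ := hx
  rw [tr_apply]
  simp only [PiLp.add_apply, Matrix.cons_val_zero, Matrix.cons_val_one, Matrix.cons_val]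
  refine ⟨⟨?_, ?_⟩, ⟨?_, ?_⟩, ⟨?_, ?_⟩⟩ <;> nlinarith

private theorem fl {X y : ℝ} (hX : 0 < X) :
    0 ≤ y - X * (⌊y / X⌋ : ℝ) ∧ y - X * (⌊y / X⌋ : ℝ) ≤ X := by
  have h1 := Int.floor_le (y / X)
  have h2 := (Int.lt_floor_add_one (y / X)).le
  rw [le_div_iff₀ hX] at h1
  rw [div_le_iff₀ hX] at h2
  constructor <;> nlinarith

/-- two sets in layers -/
private theorem layer {A B : Set E3} (k : Fin 3) {W : ℝ} (hW : 0 < W) {a b : ℤ} (hab : a ≠ b)
    (hA : ∀ x ∈ A, W * (a : ℝ) ≤ x k ∧ x k ≤ W * ((a : ℝ) + 1))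
    (hB : ∀ x ∈ B, W * (b : ℝ) ≤ x k ∧ x k ≤ W * ((b : ℝ) + 1)) :
    Disjoint (interior A) (interior B) := by
  have key : ∀ (A B : Set E3) (a b : ℤ), a < b →
      (∀ x ∈ A, W * (a : ℝ) ≤ x k ∧ x k ≤ W * ((a : ℝ) + 1)) →
      (∀ x ∈ B, W * (b : ℝ) ≤ x k ∧ x k ≤ W * ((b : ℝ) + 1)) →
      Disjoint (interior A) (interior B) := by
    intro A B a b hab hA hB
    have hab' : (a : ℝ) + 1 ≤ b := by exact_mod_cast hab
    refine sep (fun x => x k - W * ((a : ℝ) + 1)) (EuclideanSpace.single k 1) ?_ ?_ ?_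
    · intro x ε hε
      simp only [PiLp.add_apply, PiLp.smul_apply, EuclideanSpace.single_apply, if_true,
        smul_eq_mul, mul_one]
      linarith
    · intro x hx
      have := (hA x hx).2
      simp only
      linarith
    · intro x hx
      have h1 := (hB x hx).1
      have h2 := mul_le_mul_of_nonneg_left hab' hW.le
      simp only
      linarith
  rcases lt_or_gt_of_ne hab with h | h
  · exact key A B a b h hA hB
  · exact (key B A b a h hB hA).symm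

theorem bxx_tiles {X Y Z : ℝ} (hX : 0 < X) (hY : 0 < Y) (hZ : 0 < Z) : Tiles (bxx X Y Z) := by
  refine ⟨range (tr X Y Z), ?_, ?_⟩
  · refine eq_univ_of_forall fun x => ?_
    simp only [mem_iUnion, exists_prop]
    refine ⟨tr X Y Z (⌊x 0 / X⌋, ⌊x 1 / Y⌋, ⌊x 2 / Z⌋), mem_range_self _, ?_⟩
    have h0 := fl (y := x 0) hX
    have h1 := fl (y := x 1) hY
    have h2 := fl (y := x 2) hZ
    refine ⟨x - !₂[X * (⌊x 0 / X⌋ : ℝ), Y * (⌊x 1 / Y⌋ : ℝ), Z * (⌊x 2 / Z⌋ : ℝ)], ?_, ?_⟩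
    · simp only [bxx, mem_setOf_eq, PiLp.sub_apply, Matrix.cons_val_zero, Matrix.cons_val_one,
        Matrix.cons_val]
      exact ⟨h0.1, h0.2, h1.1, h1.2, h2.1, h2.2⟩
    · rw [tr_apply]
      exact sub_add_cancel _ _
  · rintro _ ⟨u, rfl⟩ _ ⟨v, rfl⟩ huv
    have huv' : u ≠ v := fun h => huv (by rw [h])
    by_cases h0 : u.1 = v.1
    · by_cases h1 : u.2.1 = v.2.1
      · by_cases h2 : u.2.2 = v.2.2
        · exact absurd (Prod.ext h0 (Prod.ext h1 h2)) huv'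
        · exact layer 2 hZ h2 (fun x hx => (mem_tr u hx).2.2) fun x hx => (mem_tr v hx).2.2
      · exact layer 1 hY h1 (fun x hx => (mem_tr u hx).2.1) fun x hx => (mem_tr v hx).2.1
    · exact layer 0 hX h0 (fun x hx => (mem_tr u hx).1) fun x hx => (mem_tr v hx).1

end Pool.CylS
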