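import Pool.Agent.W_0c5e58_h99.SSplit
import Pool.Agent.W_0c5e58_h99.SBoxA
import Pool.Agent.W_0c5e58_h99.SBoxB
import Pool.Agent.W_0c5e58_h61.GTile

/-!
# Finite packings in a box

`box_density`: `U = ⋃ i, g i '' C ⊆ bxx`; `volume U = card * volume C`
(`measure_iUnion₀`/`tsum_fintype`, null overlaps by `GTile_null`, `vol_isom`);
`tile_density` (W_0c5e58_h61/GTile.lean) gives `volume U / volume bxx ≤ packDensity U`, and
`split_le` gives `packDensity U ≤ packDensity C`.  The frontier of the convex body `bxx` is null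
(`Convex.addHaar_frontier`).
-/

open MeasureTheory Metric Set Filter
open scoped Topology ENNReal

namespace Pool.CylS

open Pool.TC

theorem box_density {C : Set E3} (hC : IsCompact C) (hCf : volume (frontier C) = 0)
    {X Y Z : ℝ} (hX : 0 < X) (hY : 0 < Y) (hZ : 0 < Z) {ι : Type} [Fintype ι]
    (g : ι → E3 ≃ᵢ E3) (hin : ∀ i, g i '' C ⊆ bxx X Y Z)
    (hd : Pairwise (fun i j => Disjoint (interior (g i '' C)) (interior (g j '' C)))) :
    (Fintype.card ι : ℝ≥0∞) * volume C / ENNReal.ofReal (X * Y * Z) ≤ packDensity C := by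
  have hm : ∀ i, MeasurableSet (g i '' C) := fun i =>
    (g i).toHomeomorph.measurableEmbedding.measurableSet_image.2 hC.measurableSet
  have hvol : volume (⋃ i, g i '' C) = (Fintype.card ι : ℝ≥0∞) * volume C := by
    rw [measure_iUnion₀ (fun i j hij => GTile_null hC hCf (g i) (g j) (hd hij))
      (fun i => (hm i).nullMeasurableSet), tsum_fintype]
    rw [Finset.sum_congr rfl (fun i _ => vol_isom (g i) C), Finset.sum_const, Finset.card_univ,
      nsmul_eq_mul]
  have h1 : volume (⋃ i, g i '' C) / volume (bxx X Y Z) ≤ packDensity (⋃ i, g i '' C) :=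
    tile_density (by norm_num) (bxx_compact X Y Z) (bxx_interior hX hY hZ)
      ((bxx_convex X Y Z).addHaar_frontier volume) (bxx_tiles hX hY hZ) (iUnion_subset hin)
      (MeasurableSet.iUnion hm)
  rw [hvol, bxx_vol hX.le hY.le hZ.le] at h1
  exact h1.trans (split_le g rfl hd)

end Pool.CylS
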