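import Pool.Agent.W_0c5e58_h99.SPack

/-!
# The count

Let `W = Wd`, `I = s q (b - q)`, `μ = s b / 2 - 2 (I / b + s W) = (2 s / b) ((b/2 - q)^2 - b W) > 0`
(`P.gain`), `e = μ / 2`, `F = s q + s W` (`fj ≤ F`, `fj_le`).  Choose `i₀ = ⌈P0 / b⌉₊`
(`b i₀ < P0 + b`), `n` with `n e ≥ 2 I / W + 2 P0 + 2 b + 1` and `n W ≥ 2 P0 + 2 b`, and
`NA = ⌊(n W - P0) / b⌋₊ - i₀` (so `b NA ≥ n W - 2 P0 - 2 b`).  All this does not depend on `h`.
`h₀ = max` of `2 F + e + 1`, `8 P0^2 (2 F + e) / e^2`, `2 s q + 1`.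
For `h ≥ h₀`: `co j = 1 - (2 fj j + e) / h ∈ (0, 1)`, `si j = √(1 - co j ^ 2)`;
`si^2 = (1 - co)(1 + co) ≤ 2 (2 fj + e) / h ≤ 2 (2 F + e) / h`, so `(2 P0 si)^2 ≤ e^2`, `2 P0 si ≤ e`,
which is `tilt` (`h co = h - 2 fj - e`).
`Z = h n W + (2 P0 + h) n h + n b h + 2 P0 + 2 h + 1`, `M = ⌊Z / h⌋₊` (`M h ≥ Z - h`),
`m j = ⌊(Z - 2 P0 - h) co j / b⌋₊` (`b m j ≥ (Z - 2 P0 - h) co j - b`).
`b h (NA M + ∑ m j) ≥ (n W - 2 P0 - 2 b) (Z - h) + h ∑ ((Z - 2 P0 - h) co j - b)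
 = (n W - 2 P0 - 2 b) (Z - h) + (Z - 2 P0 - h) (n h - 2 ∑ fj - n e) - n b h`.
Minus `(2 t + h) n Z`: the coefficient of `Z` is
`n (W - 2 t - e) - 2 ∑ fj - 2 P0 - 2 b ≥ n (s b/2 - e - 2 (I/b + s W)) - 2 I / W - 2 P0 - 2 b
 = n e - 2 I / W - 2 P0 - 2 b ≥ 1` (`fj_sum`), the rest is at least
`- h n W - (2 P0 + h) n h - n b h`.  So the difference is positive.
-/

open MeasureTheory Metric Set Filter
open scoped Topology ENNReal

namespace Pool.CylS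

open Pool.TC

theorem SCount_fin {n W p b Z h α β e t S1 S2 Sf : ℝ} (hn : 0 ≤ n) (hp : 0 < p) (hb : 0 < b)
    (hh : 0 < h) (hα : 0 ≤ α) (hβ : 0 ≤ β) (he : 0 < e)
    (hZ : Z = h * n * W + (2 * p + h) * n * h + n * b * h + 2 * p + 2 * h + 1)
    (hZp : 0 ≤ Z - 2 * p - h) (hZ0 : 0 < Z) (hSf : Sf ≤ n * α + β)
    (hW : W = 2 * t + 2 * α + 2 * e) (hne : 2 * β + 2 * p + 2 * b + 1 ≤ n * e)
    (h1 : (n * W - 2 * p - 2 * b) * (Z - h) ≤ S1)
    (h2 : (Z - 2 * p - h) * (n * h - 2 * Sf - n * e) - n * b * h ≤ S2) :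
    (2 * t + h) * n * Z < S1 + S2 := by
  have a1 : 0 ≤ (Z - 2 * p - h) * (n * α + β - Sf) := mul_nonneg hZp (by linarith)
  have a2 : 0 ≤ Z * (n * e - (2 * β + 2 * p + 2 * b + 1)) := mul_nonneg hZ0.le (by linarith)
  have a3 : 0 ≤ (2 * p + h) * (2 * (n * α) + 2 * β + n * e) := by positivity
  have a4 : 0 ≤ h * (2 * p + 2 * b) := by positivity
  have key : (n * W - 2 * p - 2 * b) * (Z - h) +
      ((Z - 2 * p - h) * (n * h - 2 * Sf - n * e) - n * b * h) - (2 * t + h) * n * Z =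
      2 * ((Z - 2 * p - h) * (n * α + β - Sf)) + Z * (n * e - (2 * β + 2 * p + 2 * b + 1)) +
      (2 * p + h) * (2 * (n * α) + 2 * β + n * e) + h * (2 * p + 2 * b) +
      (Z - (h * n * W + (2 * p + h) * n * h + n * b * h)) := by
    rw [hW]
    ring
  have a5 : Z - (h * n * W + (2 * p + h) * n * h + n * b * h) = 2 * p + 2 * h + 1 := by
    rw [hZ]
    ring
  rw [a5] at key
  linarith

theorem SCount_tilt {p e f F h co si : ℝ} (hp : 0 < p) (he : 0 < e) (hf0 : 0 ≤ f) (hfF : f ≤ F)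
    (hco : co = 1 - (2 * f + e) / h) (hsi : si = √(1 - co ^ 2)) (hh0 : 2 * F + e < h)
    (hh1 : 8 * p ^ 2 * (2 * F + e) / e ^ 2 ≤ h) :
    co ^ 2 + si ^ 2 = 1 ∧ 0 < co ∧ 0 ≤ si ∧ h * co + 2 * p * si ≤ h - 2 * f ∧ co ≤ 1 := by
  have hh : 0 < h := by linarith
  have hx : (2 * f + e) / h < 1 := by
    rw [div_lt_one hh]
    linarith
  have hx0 : 0 ≤ (2 * f + e) / h := by positivity
  have hco0 : 0 < co := by linarith
  have hco1 : co ≤ 1 := by linarith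
  have hsq : 0 ≤ 1 - co ^ 2 := by nlinarith
  have hs2 : si ^ 2 = 1 - co ^ 2 := by
    rw [hsi]
    exact Real.sq_sqrt hsq
  have hs0 : 0 ≤ si := by
    rw [hsi]
    exact Real.sqrt_nonneg _
  refine ⟨by rw [hs2]; ring, hco0, hs0, ?_, hco1⟩
  have h1 : h * co = h - 2 * f - e := by
    rw [hco, mul_sub, mul_one, mul_div_cancel₀ _ hh.ne']
    ring
  have h2 : 2 * p * si ≤ e := by
    refine abs_le_of_sq_le_sq' ?_ he.le |>.2
    rw [mul_pow, hs2]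
    have h3 : 1 - co ^ 2 ≤ 2 * ((2 * F + e) / h) := by
      have h4 : 1 - co = (2 * f + e) / h := by rw [hco]; ring
      have h5 : (2 * f + e) / h ≤ (2 * F + e) / h := by gcongr
      nlinarith
    have h6 : (2 * p) ^ 2 * (1 - co ^ 2) ≤ (2 * p) ^ 2 * (2 * ((2 * F + e) / h)) := by gcongr
    refine h6.trans ?_
    rw [div_le_iff₀ (by positivity)] at hh1
    have h7 : (2 * p) ^ 2 * (2 * ((2 * F + e) / h)) = 8 * p ^ 2 * (2 * F + e) / h := by ring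
    rw [h7, div_le_iff₀ hh]
    linarith
  rw [h1]
  linarith

theorem SCount_abs {t b W p F α β : ℝ} {f : ℕ → ℝ} (hb : 0 < b) (hW : 0 < W)
    (hp : 0 < p) (hα : 0 ≤ α) (hβ : 0 ≤ β) (hf0 : ∀ j, 0 ≤ f j) (hfF : ∀ j, f j ≤ F)
    (hsum : ∀ n : ℕ, ∑ j ∈ Finset.range n, f j ≤ n * α + β) (hgain : 0 < W - 2 * t - 2 * α)
    (Q : ℝ) : ∃ h₀ > 0, ∀ h, h₀ ≤ h →
    ∃ (n i₀ NA M : ℕ) (Z : ℝ) (co si : ℕ → ℝ) (m : ℕ → ℕ),
      0 < n ∧ 0 < Z ∧ Q ≤ h ∧ p ≤ b * i₀ ∧ b * (i₀ + NA) + p ≤ n * W ∧ M * h ≤ Z ∧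
      (∀ j < n, co j ^ 2 + si j ^ 2 = 1) ∧ (∀ j < n, 0 < co j) ∧ (∀ j < n, 0 ≤ si j) ∧
      (∀ j < n, h * co j + 2 * p * si j ≤ h - 2 * f j) ∧
      (∀ j < n, 2 * p + h + m j * (b / co j) ≤ Z) ∧
      (2 * t + h) * (n * W) * Z <
        b * W / 2 * h * ((2 * NA * M + ∑ j ∈ Finset.range n, 2 * m j : ℕ) : ℝ) := by
  obtain ⟨e, he⟩ : ∃ e, e = (W - 2 * t - 2 * α) / 2 := ⟨_, rfl⟩
  have he0 : 0 < e := by rw [he]; linarith
  have hWe : W = 2 * t + 2 * α + 2 * e := by rw [he]; ring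
  have hF0 : 0 ≤ F := (hf0 0).trans (hfF 0)
  -- the numbers which do not depend on `h`
  obtain ⟨i₀, hi1, hi2⟩ : ∃ i₀ : ℕ, p ≤ b * i₀ ∧ b * i₀ < p + b := by
    refine ⟨⌈p / b⌉₊, ?_, ?_⟩
    · have h1 := Nat.le_ceil (p / b)
      rw [div_le_iff₀ hb] at h1
      linarith
    · have h1 := Nat.ceil_lt_add_one (show (0 : ℝ) ≤ p / b by positivity)
      have h2 := mul_lt_mul_of_pos_left h1 hb
      rw [mul_add, mul_div_cancel₀ _ hb.ne', mul_one] at h2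
      exact h2
  obtain ⟨n, hn0, hn1, hn2⟩ : ∃ n : ℕ, 0 < n ∧ 2 * β + 2 * p + 2 * b + 1 ≤ n * e ∧
      2 * p + 2 * b ≤ n * W := by
    obtain ⟨n1, h1⟩ := exists_nat_ge ((2 * β + 2 * p + 2 * b + 1) / e)
    obtain ⟨n2, h2⟩ := exists_nat_ge ((2 * p + 2 * b) / W)
    rw [div_le_iff₀ he0] at h1
    rw [div_le_iff₀ hW] at h2
    refine ⟨n1 + n2 + 1, by omega, ?_, ?_⟩
    · push_cast
      have : 0 ≤ ((n2 : ℝ) + 1) * e := by positivity
      linarith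
    · push_cast
      have : 0 ≤ ((n1 : ℝ) + 1) * W := by positivity
      linarith
  obtain ⟨NA, hN1, hN2⟩ : ∃ NA : ℕ, b * (i₀ + NA) + p ≤ n * W ∧
      n * W - 2 * p - 2 * b ≤ b * NA := by
    have h0 : 0 ≤ (n * W - p) / b := by
      apply div_nonneg _ hb.le
      linarith
    have h1 : i₀ ≤ ⌊(n * W - p) / b⌋₊ := by
      apply Nat.le_floor
      rw [le_div_iff₀ hb]
      linarith
    obtain ⟨NA, hNA⟩ := Nat.exists_eq_add_of_le h1
    have h2 : ((i₀ : ℝ) + NA) = (⌊(n * W - p) / b⌋₊ : ℕ) := by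
      rw [hNA]
      push_cast
      ring
    have h3 := Nat.floor_le h0
    have h4 := Nat.lt_floor_add_one ((n * W - p) / b)
    rw [le_div_iff₀ hb] at h3
    rw [div_lt_iff₀ hb] at h4
    refine ⟨NA, ?_, ?_⟩
    · rw [h2]
      linarith
    · rw [← h2] at h4
      linarith
  refine ⟨2 * F + e + 1 + 8 * p ^ 2 * (2 * F + e) / e ^ 2 + |Q|, by positivity, fun h hh => ?_⟩
  have hq1 : 0 ≤ 8 * p ^ 2 * (2 * F + e) / e ^ 2 := by positivity
  have hq2 := abs_nonneg Q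
  have hq3 := le_abs_self Q
  have hh0 : 2 * F + e < h := by linarith
  have hh1 : 8 * p ^ 2 * (2 * F + e) / e ^ 2 ≤ h := by linarith
  have hhp : 0 < h := by linarith
  obtain ⟨Z, hZ⟩ : ∃ Z, Z = h * n * W + (2 * p + h) * n * h + n * b * h + 2 * p + 2 * h + 1 :=
    ⟨_, rfl⟩
  have hnr : (0 : ℝ) ≤ n := Nat.cast_nonneg n
  have hpos : 0 ≤ h * n * W + (2 * p + h) * n * h + n * b * h := by positivity
  have hZ0 : 0 < Z := by rw [hZ]; linarith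
  have hZp : 0 ≤ Z - 2 * p - h := by rw [hZ]; linarith
  have hZh : 0 ≤ Z - h := by linarith
  have hco := fun j : ℕ => SCount_tilt hp he0 (hf0 j) (hfF j) rfl rfl hh0 hh1
  obtain ⟨co, hcod⟩ : ∃ co : ℕ → ℝ, co = fun j => 1 - (2 * f j + e) / h := ⟨_, rfl⟩
  obtain ⟨M, hM1, hM2⟩ : ∃ M : ℕ, M * h ≤ Z ∧ Z - h ≤ h * M := by
    refine ⟨⌊Z / h⌋₊, ?_, ?_⟩
    · have h1 := Nat.floor_le (show 0 ≤ Z / h by positivity)
      rwa [le_div_iff₀ hhp] at h1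
    · have h1 := Nat.lt_floor_add_one (Z / h)
      rw [div_lt_iff₀ hhp] at h1
      linarith
  have hm : ∀ j : ℕ, ∃ m : ℕ, 2 * p + h + m * (b / (1 - (2 * f j + e) / h)) ≤ Z ∧
      (Z - 2 * p - h) * (1 - (2 * f j + e) / h) - b ≤ b * m := by
    intro j
    obtain ⟨-, hc, -, -, -⟩ := hco j
    generalize 1 - (2 * f j + e) / h = c at hc
    refine ⟨⌊(Z - 2 * p - h) * c / b⌋₊, ?_, ?_⟩
    · have h1 := Nat.floor_le (show 0 ≤ (Z - 2 * p - h) * c / b by positivity)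
      have h2 : (⌊(Z - 2 * p - h) * c / b⌋₊ : ℝ) * (b / c) ≤
          (Z - 2 * p - h) * c / b * (b / c) := by gcongr
      have h3 : (Z - 2 * p - h) * c / b * (b / c) = Z - 2 * p - h := by
        field_simp
      linarith
    · have h1 := Nat.lt_floor_add_one ((Z - 2 * p - h) * c / b)
      rw [div_lt_iff₀ hb] at h1
      linarith
  choose m hm1 hm2 using hm
  refine ⟨n, i₀, NA, M, Z, fun j => 1 - (2 * f j + e) / h,
    fun j => √(1 - (1 - (2 * f j + e) / h) ^ 2), m, hn0, hZ0, by linarith, hi1, hN1, hM1,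
    fun j _ => (hco j).1, fun j _ => (hco j).2.1, fun j _ => (hco j).2.2.1,
    fun j _ => (hco j).2.2.2.1, fun j _ => hm1 j, ?_⟩
  -- the final inequality
  have hS1 : (n * W - 2 * p - 2 * b) * (Z - h) ≤ (b * NA) * (h * M) := by
    apply mul_le_mul hN2 hM2 hZh
    positivity
  have hS2 : (Z - 2 * p - h) * (n * h - 2 * ∑ j ∈ Finset.range n, f j - n * e) - n * b * h ≤
      h * ∑ j ∈ Finset.range n, b * (m j : ℝ) := by
    have h1 : ∑ j ∈ Finset.range n, ((Z - 2 * p - h) * (1 - (2 * f j + e) / h) - b) ≤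
        ∑ j ∈ Finset.range n, b * (m j : ℝ) := Finset.sum_le_sum fun j _ => hm2 j
    have h2 := mul_le_mul_of_nonneg_left h1 hhp.le
    refine le_trans (le_of_eq ?_) h2
    rw [Finset.mul_sum (Finset.range n)
      (fun j => (Z - 2 * p - h) * (1 - (2 * f j + e) / h) - b) h]
    have h3 : ∀ j, h * ((Z - 2 * p - h) * (1 - (2 * f j + e) / h) - b) =
        (Z - 2 * p - h) * h - (Z - 2 * p - h) * e - b * h - 2 * (Z - 2 * p - h) * f j := by
      intro j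
      field_simp
      ring
    simp only [h3]
    rw [Finset.sum_sub_distrib, Finset.sum_const, Finset.card_range, nsmul_eq_mul,
      ← Finset.mul_sum]
    ring
  have hfin := SCount_fin hnr hp hb hhp hα hβ he0 hZ hZp hZ0 (hsum n) hWe hn1 hS1 hS2
  have hcast : ((2 * NA * M + ∑ j ∈ Finset.range n, 2 * m j : ℕ) : ℝ) =
      2 * (NA * M + ∑ j ∈ Finset.range n, (m j : ℝ)) := by
    push_cast
    rw [← Finset.mul_sum]
    ring
  rw [hcast]
  have h4 : b * W / 2 * h * (2 * (NA * M + ∑ j ∈ Finset.range n, (m j : ℝ))) =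
      W * ((b * NA) * (h * M) + h * ∑ j ∈ Finset.range n, b * (m j : ℝ)) := by
    rw [← Finset.mul_sum]
    ring
  rw [h4]
  have h5 := mul_lt_mul_of_pos_left hfin hW
  refine lt_of_eq_of_lt ?_ h5
  ring

theorem count {t c b q s : ℝ} (P : Par t c b q s) : ∃ h₀ > 0, ∀ h, h₀ ≤ h →
    ∃ (n i₀ NA M : ℕ) (Z : ℝ) (co si : ℕ → ℝ) (m : ℕ → ℕ),
      Cfg t c b q s h n i₀ NA M Z co si m ∧
      (2 * t + h) * (n * Wd t b s) * Z <
        b * Wd t b s / 2 * h * ((2 * NA * M + ∑ j ∈ Finset.range n, 2 * m j : ℕ) : ℝ) := by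
  have hb := P.hb
  have hW := P.W0
  have hq := P.hq
  have hs := P.hs
  have hqb := P.hqb
  have hbq : 0 < b - q := by linarith
  have hα : 0 ≤ s * q * (b - q) / b + s * Wd t b s := by positivity
  have hβ : 0 ≤ s * q * (b - q) / Wd t b s := by positivity
  have hgain : 0 < Wd t b s - 2 * t - 2 * (s * q * (b - q) / b + s * Wd t b s) := by
    have h1 := P.gain
    have h2 : Wd t b s - 2 * t - 2 * (s * q * (b - q) / b + s * Wd t b s) =
        2 * s / b * ((b / 2 - q) ^ 2 - b * Wd t b s) := by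
      have h3 : Wd t b s - 2 * t = s * b / 2 := by unfold Wd; ring
      rw [h3]
      field_simp
      ring
    rw [h2]
    have h3 : 0 < (b / 2 - q) ^ 2 - b * Wd t b s := by
      unfold Wd
      linarith
    positivity
  obtain ⟨h₀, hh₀, H⟩ := SCount_abs hb hW P.P00 hα hβ (fun j => fj_nonneg P j)
    (fun j => fj_le P j) (fun n => fj_sum P n) hgain (2 * s * q)
  refine ⟨h₀, hh₀, fun h hh => ?_⟩
  obtain ⟨n, i₀, NA, M, Z, co, si, m, a1, a2, a3, a4, a5, a6, a7, a8, a9, a10, a11, a12⟩ := H h hh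
  exact ⟨n, i₀, NA, M, Z, co, si, m, ⟨a1, a2, a3, a4, a5, a6, a7, a8, a9, a10, a11⟩, a12⟩

end Pool.CylS
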