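import Pool.Agent.W_0c5e58_h33.Defs

/-!
# MP_0c5e58_co, disproof of Q1, solid part: definitions

Bodies `Kg t c b q s = {-t ≤ r, |p - c r| ≤ b/2, r ≤ s min(q, b/2 - |p|)}` (`p = x 0`, `r = x 1`),
houses `Hg t c b s = {-t ≤ r, |p - c r| ≤ b/2, r ≤ s (b/2 - |p|)}`; helper33's `K s` is
`Kg (1/32) 96 3 1 s`.  Goal (file SFinal): long cylinders over `Kg` have packing density larger
than `|Kg| / |Hg|`.

The packing lives in the box `[0, X] × [0, Y] × [0, Z]`, `X = 2 t + h`, `Y = n W`,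
`W = 2 t + s b / 2`.  Two slabs of rods parallel to the third axis (maps `IsA`, `IsA'`) with the
faces `x = t + κ(y)` and `x = X - t - κ(y)` (`κ = kper`, periodic profile), and between them, in the
strip `j W ≤ y ≤ (j + 1) W`, tilted rods (maps `IsR`, `IsR'`) with
`t + f_j ≤ x ≤ X - t - f_j`.
-/

open MeasureTheory Metric Set Filter
open scoped Topology ENNReal

namespace Pool.CylS

open Pool.TC

/-- the profile of the bulge -/
noncomputable def kp (b q s p : ℝ) : ℝ := s * min q (b / 2 - |p|)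

/-- the distance to `b ℤ` -/
noncomputable def dp (b y : ℝ) : ℝ := |y - b * round (y / b)|

/-- the periodic profile -/
noncomputable def kper (b q s y : ℝ) : ℝ := s * min q (b / 2 - dp b y)

/-- the body -/
def Kg (t c b q s : ℝ) : Set E2 :=
  {x | -t ≤ x 1 ∧ |x 0 - c * x 1| ≤ b / 2 ∧ x 1 ≤ kp b q s (x 0)}

/-- the house -/
def Hg (t c b s : ℝ) : Set E2 :=
  {x | -t ≤ x 1 ∧ |x 0 - c * x 1| ≤ b / 2 ∧ x 1 ≤ s * (b / 2 - |x 0|)}

/-- the admissible parameters -/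
structure Par (t c b q s : ℝ) : Prop where
  ht : 0 < t
  hq : 0 < q
  hqb : q < b / 2
  hs : 0 < s
  hsc : s * |c| ≤ 1
  gain : b * (2 * t + s * b / 2) < (b / 2 - q) ^ 2

theorem Par.hb {t c b q s : ℝ} (P : Par t c b q s) : 0 < b := by
  have := P.hq
  have := P.hqb
  linarith

/-- the width of a strip -/
noncomputable def Wd (t b s : ℝ) : ℝ := 2 * t + s * b / 2

theorem Par.W0 {t c b q s : ℝ} (P : Par t c b q s) : 0 < Wd t b s := by
  have := P.ht
  have := mul_pos P.hs P.hb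
  unfold Wd
  linarith

/-- bound for the first coordinate on the body -/
noncomputable def P0 (t c b : ℝ) : ℝ := b / 2 + |c| * t

theorem Par.P00 {t c b q s : ℝ} (P : Par t c b q s) : 0 < P0 t c b := by
  have := P.hb
  have := mul_nonneg (abs_nonneg c) P.ht.le
  unfold P0
  linarith

/-- the relief of the strip `j` -/
noncomputable def fj (t b q s : ℝ) (j : ℕ) : ℝ :=
  (∫ y in ((j : ℝ) * Wd t b s)..(((j : ℝ) + 1) * Wd t b s), kper b q s y) / Wd t b s + s * Wd t b s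

/-- the box -/
def bxx (X Y Z : ℝ) : Set E3 :=
  {x | 0 ≤ x 0 ∧ x 0 ≤ X ∧ 0 ≤ x 1 ∧ x 1 ≤ Y ∧ 0 ≤ x 2 ∧ x 2 ≤ Z}

/-- rod of the left slab -/
def IsA (t b h : ℝ) (i k : ℕ) (g : E3 ≃ᵢ E3) : Prop :=
  ∀ x, g x 0 = x 1 + t ∧ g x 1 = x 0 + b * i ∧ g x 2 = x 2 + k * h

/-- rod of the right slab -/
def IsA' (X t b h : ℝ) (i k : ℕ) (g : E3 ≃ᵢ E3) : Prop :=
  ∀ x, g x 0 = X - (x 1 + t) ∧ g x 1 = x 0 + b * i ∧ g x 2 = x 2 + k * h

/-- tilted rod, first kind: `w` is the position of the wall, `f` the relief, `co, si` cosine and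
sine of the tilt, `i` the number of the rod -/
def IsR (t c b w f co si : ℝ) (i : ℕ) (g : E3 ≃ᵢ E3) : Prop :=
  ∀ x, g x 0 = t + f + P0 t c b * si + x 2 * co - x 0 * si ∧ g x 1 = w + t + x 1 ∧
    g x 2 = P0 t c b + x 2 * si + x 0 * co + i * b / co

/-- tilted rod, second kind -/
def IsR' (t c b s w f co si : ℝ) (i : ℕ) (g : E3 ≃ᵢ E3) : Prop :=
  ∀ x, g x 0 = t + f + P0 t c b * si + x 2 * co + x 0 * si ∧ g x 1 = w + t + s * b / 2 - x 1 ∧
    g x 2 = P0 t c b + x 2 * si - x 0 * co + (i + 1 / 2) * b / co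

/-- Sets on the two sides of the graph of a function which is strictly increasing in one direction
have disjoint interiors. -/
theorem sep {A B : Set E3} (f : E3 → ℝ) (e : E3) (hf : ∀ x, ∀ ε : ℝ, 0 < ε → f x < f (x + ε • e))
    (hA : ∀ x ∈ A, f x ≤ 0) (hB : ∀ x ∈ B, 0 ≤ f x) : Disjoint (interior A) (interior B) := by
  rw [Set.disjoint_left]
  intro x hxA hxB
  have hc : Continuous fun ε : ℝ => x + ε • e := by fun_prop
  have h1 : ∀ᶠ ε : ℝ in 𝓝 0, x + ε • e ∈ interior A := by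
    refine hc.continuousAt.eventually_mem (isOpen_interior.mem_nhds ?_)
    simpa using hxA
  obtain ⟨ε, hε, hε0⟩ : ∃ ε : ℝ, x + ε • e ∈ interior A ∧ 0 < ε := by
    obtain ⟨δ, hδ, hδ'⟩ := Metric.eventually_nhds_iff.1 h1
    refine ⟨δ / 2, hδ' ?_, by positivity⟩
    rw [Real.dist_eq, sub_zero, abs_of_pos (by positivity)]
    linarith
  have h2 := hA _ (interior_subset hε)
  have h3 := hB _ (interior_subset hxB)
  have h4 := hf x ε hε0
  linarith

/-- points of the cylinder over the body -/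
theorem mem_cylK {t c b q s h : ℝ} {x : E3} : x ∈ cyl (Kg t c b q s) h ↔
    (-t ≤ x 1 ∧ |x 0 - c * x 1| ≤ b / 2 ∧ x 1 ≤ kp b q s (x 0)) ∧ 0 ≤ x 2 ∧ x 2 ≤ h :=
  Iff.rfl

end Pool.CylS
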