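import Pool.Agent.W_0c5e58_h99.SSets

/-!
# The regions have disjoint interiors

Everything is `sep` (SDefs.lean) with a suitable function `F` and direction
`e = EuclideanSpace.single k 1` (`(x + ε • e) l = x l + ε * (if l = k then 1 else 0)`; `simp`).
* `disj_AA`: `k < k'`: `F y = y 2 - (k+1) h`, `e = e_2`; `i < i'`: `F y = y 1 - b i - c (y 0 - t) - b/2`,
  `e = e_1` (on the second set `y 1 - b i - c (..) ≥ b (i' - i) - b/2 ≥ b/2`).
* `disj_AA'`: `F y = y 0 - (t + s q)`, `e = e_0`, `kper_le`.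
* `disj_AS`: `F y = y 0 - t - kper (y 1)`, `e = e_0`.
* `disj_SA'`: `F y = t + kper (y 1) - (t + t + h - y 0)`, `e = e_0`.
* `disj_SS`: `F y = y 1 - (w + Wd)`, `e = e_1`.
-/

open MeasureTheory Metric Set Filter
open scoped Topology ENNReal

namespace Pool.CylS

open Pool.TC

private theorem SDisjA_same (x : E3) (ε : ℝ) (k : Fin 3) :
    (x + ε • (EuclideanSpace.single k (1 : ℝ) : E3)) k = x k + ε := by
  simp

private theorem SDisjA_ne (x : E3) (ε : ℝ) {k l : Fin 3} (h : l ≠ k) :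
    (x + ε • (EuclideanSpace.single k (1 : ℝ) : E3)) l = x l := by
  simp [h]

private theorem SDisjA_kk {h : ℝ} (hh : 0 < h) {k k' : ℕ} (hk : k < k')
    {S S' : Set E3} (hS : S ⊆ {y | y 2 ≤ (k + 1) * h}) (hS' : S' ⊆ {y | k' * h ≤ y 2}) :
    Disjoint (interior S) (interior S') := by
  refine sep (fun y => y 2 - (k + 1) * h) (EuclideanSpace.single 2 1) (fun x ε hε => ?_)
    (fun x hx => ?_) (fun x hx => ?_)
  · simp only [SDisjA_same]
    linarith
  · have := hS hx
    simp only [Set.mem_ofPred_eq] at this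
    linarith
  · have h1 := hS' hx
    simp only [Set.mem_ofPred_eq] at h1
    have h2 : ((k : ℝ) + 1) ≤ k' := by exact_mod_cast hk
    have h3 := mul_le_mul_of_nonneg_right h2 hh.le
    linarith

private theorem SDisjA_ii {t c b q s h : ℝ} (P : Par t c b q s) {i k i' k' : ℕ} (hi : i < i')
    {S S' : Set E3} (hS : S ⊆ SA t c b q s h i k) (hS' : S' ⊆ SA t c b q s h i' k') :
    Disjoint (interior S) (interior S') := by
  refine sep (fun y => y 1 - b * i - c * (y 0 - t) - b / 2) (EuclideanSpace.single 1 1)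
    (fun x ε hε => ?_) (fun x hx => ?_) (fun x hx => ?_)
  · have e0 : (x + ε • (EuclideanSpace.single 1 (1 : ℝ) : E3)) 0 = x 0 := SDisjA_ne x ε (by decide)
    simp only [SDisjA_same, e0]
    linarith
  · have := (abs_le.1 (hS hx).2.2.2.2.2).2
    linarith
  · have h1 := (abs_le.1 (hS' hx).2.2.2.2.2).1
    have h2 : ((i : ℝ) + 1) ≤ i' := by exact_mod_cast hi
    have h3 := mul_le_mul_of_nonneg_left h2 P.hb.le
    linarith

private theorem SDisjA_ii' {X t c b q s h : ℝ} (P : Par t c b q s) {i k i' k' : ℕ} (hi : i < i')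
    {S S' : Set E3} (hS : S ⊆ SA' X t c b q s h i k) (hS' : S' ⊆ SA' X t c b q s h i' k') :
    Disjoint (interior S) (interior S') := by
  refine sep (fun y => y 1 - b * i - c * (X - y 0 - t) - b / 2) (EuclideanSpace.single 1 1)
    (fun x ε hε => ?_) (fun x hx => ?_) (fun x hx => ?_)
  · have e0 : (x + ε • (EuclideanSpace.single 1 (1 : ℝ) : E3)) 0 = x 0 := SDisjA_ne x ε (by decide)
    simp only [SDisjA_same, e0]
    linarith
  · have := (abs_le.1 (hS hx).2.2.2.2.2).2
    linarith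
  · have h1 := (abs_le.1 (hS' hx).2.2.2.2.2).1
    have h2 : ((i : ℝ) + 1) ≤ i' := by exact_mod_cast hi
    have h3 := mul_le_mul_of_nonneg_left h2 P.hb.le
    linarith

private theorem SDisjA_cases {i k i' k' : ℕ} (hne : (i, k) ≠ (i', k')) :
    k < k' ∨ k' < k ∨ i < i' ∨ i' < i := by
  by_contra hc
  push Not at hc
  exact hne (Prod.ext (le_antisymm hc.2.2.2 hc.2.2.1) (le_antisymm hc.2.1 hc.1))

theorem disj_AA {t c b q s h : ℝ} (P : Par t c b q s) (hh : 0 < h) {i k i' k' : ℕ}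
    (hne : (i, k) ≠ (i', k')) {S S' : Set E3} (hS : S ⊆ SA t c b q s h i k)
    (hS' : S' ⊆ SA t c b q s h i' k') : Disjoint (interior S) (interior S') := by
  rcases SDisjA_cases hne with hk | hk | hi | hi
  · exact SDisjA_kk hh hk (fun y hy => (hS hy).2.2.2.2.1) (fun y hy => (hS' hy).2.2.2.1)
  · exact (SDisjA_kk hh hk (fun y hy => (hS' hy).2.2.2.2.1) (fun y hy => (hS hy).2.2.2.1)).symm
  · exact SDisjA_ii P hi hS hS'
  · exact (SDisjA_ii P hi hS' hS).symm

theorem disj_A'A' {X t c b q s h : ℝ} (P : Par t c b q s) (hh : 0 < h) {i k i' k' : ℕ}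
    (hne : (i, k) ≠ (i', k')) {S S' : Set E3} (hS : S ⊆ SA' X t c b q s h i k)
    (hS' : S' ⊆ SA' X t c b q s h i' k') : Disjoint (interior S) (interior S') := by
  rcases SDisjA_cases hne with hk | hk | hi | hi
  · exact SDisjA_kk hh hk (fun y hy => (hS hy).2.2.2.2.1) (fun y hy => (hS' hy).2.2.2.1)
  · exact (SDisjA_kk hh hk (fun y hy => (hS' hy).2.2.2.2.1) (fun y hy => (hS hy).2.2.2.1)).symm
  · exact SDisjA_ii' P hi hS hS'
  · exact (SDisjA_ii' P hi hS' hS).symm

theorem disj_AA' {t c b q s h : ℝ} (P : Par t c b q s) (hh : 2 * s * q ≤ h) {i k i' k' : ℕ}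
    {S S' : Set E3} (hS : S ⊆ SA t c b q s h i k)
    (hS' : S' ⊆ SA' (2 * t + h) t c b q s h i' k') : Disjoint (interior S) (interior S') := by
  refine sep (fun y => y 0 - (t + s * q)) (EuclideanSpace.single 0 1)
    (fun x ε hε => ?_) (fun x hx => ?_) (fun x hx => ?_)
  · simp only [SDisjA_same]
    linarith
  · have h1 := (hS hx).2.1
    have h2 := kper_le (b := b) (q := q) P.hs.le (x 1)
    linarith
  · have h1 := (hS' hx).2.1
    have h2 := kper_le (b := b) (q := q) P.hs.le (x 1)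
    linarith

theorem disj_AS {t c b q s h w f : ℝ} {i k : ℕ} {S S' : Set E3}
    (hf : ∀ y, w ≤ y → y ≤ w + Wd t b s → kper b q s y ≤ f) (hS : S ⊆ SA t c b q s h i k)
    (hS' : S' ⊆ SS t b s h w f) : Disjoint (interior S) (interior S') := by
  refine sep (fun y => y 0 - t - kper b q s (y 1)) (EuclideanSpace.single 0 1)
    (fun x ε hε => ?_) (fun x hx => ?_) (fun x hx => ?_)
  · have e1 : (x + ε • (EuclideanSpace.single 0 (1 : ℝ) : E3)) 1 = x 1 := SDisjA_ne x ε (by decide)
    simp only [SDisjA_same, e1]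
    linarith
  · have h1 := (hS hx).2.1
    linarith
  · obtain ⟨h1, h2, h3, h4⟩ := hS' hx
    have h5 := hf (x 1) h3 h4
    linarith

theorem disj_SA' {t c b q s h w f : ℝ} {i k : ℕ} {S S' : Set E3}
    (hf : ∀ y, w ≤ y → y ≤ w + Wd t b s → kper b q s y ≤ f) (hS : S ⊆ SS t b s h w f)
    (hS' : S' ⊆ SA' (2 * t + h) t c b q s h i k) : Disjoint (interior S) (interior S') := by
  refine sep (fun y => y 0 - (t + h - kper b q s (y 1))) (EuclideanSpace.single 0 1)
    (fun x ε hε => ?_) (fun x hx => ?_) (fun x hx => ?_)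
  · have e1 : (x + ε • (EuclideanSpace.single 0 (1 : ℝ) : E3)) 1 = x 1 := SDisjA_ne x ε (by decide)
    simp only [SDisjA_same, e1]
    linarith
  · obtain ⟨h1, h2, h3, h4⟩ := hS hx
    have h5 := hf (x 1) h3 h4
    linarith
  · have h1 := (hS' hx).2.1
    linarith

theorem disj_SS {t b s h w f w' f' : ℝ} {S S' : Set E3} (hw : w + Wd t b s ≤ w')
    (hS : S ⊆ SS t b s h w f) (hS' : S' ⊆ SS t b s h w' f') :
    Disjoint (interior S) (interior S') := by
  refine sep (fun y => y 1 - (w + Wd t b s)) (EuclideanSpace.single 1 1)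
    (fun x ε hε => ?_) (fun x hx => ?_) (fun x hx => ?_)
  · simp only [SDisjA_same]
    linarith
  · have h1 := (hS hx).2.2.2
    linarith
  · have h1 := (hS' hx).2.2.1
    linarith

end Pool.CylS
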