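import Pool.Agent.W_0c5e58_h99.SSets

/-!
# The tilted rods of one strip have disjoint interiors

Everything is `sep` (SDefs.lean) with a suitable function `F` and direction
`e = EuclideanSpace.single k 1` (`(x + ε • e) l = x l + ε * (if l = k then 1 else 0)`; `simp`).
* `disj_RR`: for `i < i'`: `F y = vv y - b i - c (y 1 - w - t) - b / 2`, `e = e_2`
  (`vv (y + ε e_2) = vv y + ε co`); on the second set `vv y - b i' - c (..) ≥ - b/2`.
* `disj_R'R'`: for `i < i'`: `F y = vv y - (i + 1) b + c (s b/2 - (y 1 - w - t))`, `e = e_2`.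
* `disj_RR'`: `F y = (y 1 - w - t) - kper (vv y)`, `e = e_1` (`vv (y + ε e_1) = vv y`),
  `kper_half` with `v = vv y`.
-/

open MeasureTheory Metric Set Filter
open scoped Topology ENNReal

namespace Pool.CylS

open Pool.TC

private theorem SDisjB_e2 (y : E3) (ε : ℝ) :
    (y + ε • (EuclideanSpace.single (2 : Fin 3) (1 : ℝ) : E3)) 0 = y 0 ∧
    (y + ε • (EuclideanSpace.single (2 : Fin 3) (1 : ℝ) : E3)) 1 = y 1 ∧
    (y + ε • (EuclideanSpace.single (2 : Fin 3) (1 : ℝ) : E3)) 2 = y 2 + ε := by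
  refine ⟨by simp, by simp, by simp⟩

private theorem SDisjB_e1 (y : E3) (ε : ℝ) :
    (y + ε • (EuclideanSpace.single (1 : Fin 3) (1 : ℝ) : E3)) 0 = y 0 ∧
    (y + ε • (EuclideanSpace.single (1 : Fin 3) (1 : ℝ) : E3)) 1 = y 1 + ε ∧
    (y + ε • (EuclideanSpace.single (1 : Fin 3) (1 : ℝ) : E3)) 2 = y 2 := by
  refine ⟨by simp, by simp, by simp⟩

private theorem SDisjB_RR_lt {t c b q s h w f co si : ℝ} (P : Par t c b q s) (hco : 0 < co)
    {i i' : ℕ} (hlt : i < i') {S S' : Set E3} (hS : S ⊆ SR t c b q s h w f co si i)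
    (hS' : S' ⊆ SR t c b q s h w f co si i') : Disjoint (interior S) (interior S') := by
  have hb := P.hb
  have hi : ((i : ℝ) + 1) ≤ i' := by exact_mod_cast hlt
  have hbi : b * ((i : ℝ) + 1) ≤ b * i' := mul_le_mul_of_nonneg_left hi hb.le
  apply sep (fun y : E3 => vv t c b f co si y - b * i - c * (y 1 - w - t) - b / 2)
    (EuclideanSpace.single (2 : Fin 3) (1 : ℝ))
  · intro y ε hε
    obtain ⟨h0, h1, h2⟩ := SDisjB_e2 y ε
    have : 0 < ε * co := mul_pos hε hco
    simp only [vv, h0, h1, h2]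
    nlinarith
  · intro y hy
    have h1 := (abs_le.1 (hS hy).2.2.2.1).2
    simp only
    linarith
  · intro y hy
    have h1 := (abs_le.1 (hS' hy).2.2.2.1).1
    simp only
    linarith

private theorem SDisjB_RR'_lt {t c b q s h w f co si : ℝ} (P : Par t c b q s) (hco : 0 < co)
    {i i' : ℕ} (hlt : i < i') {S S' : Set E3} (hS : S ⊆ SR' t c b q s h w f co si i)
    (hS' : S' ⊆ SR' t c b q s h w f co si i') : Disjoint (interior S) (interior S') := by
  have hb := P.hb
  have hi : ((i : ℝ) + 1) ≤ i' := by exact_mod_cast hlt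
  have hbi : b * ((i : ℝ) + 1) ≤ b * i' := mul_le_mul_of_nonneg_left hi hb.le
  apply sep (fun y : E3 => vv t c b f co si y - b * ((i : ℝ) + 1) +
    c * (s * b / 2 - (y 1 - w - t))) (EuclideanSpace.single (2 : Fin 3) (1 : ℝ))
  · intro y ε hε
    obtain ⟨h0, h1, h2⟩ := SDisjB_e2 y ε
    have : 0 < ε * co := mul_pos hε hco
    simp only [vv, h0, h1, h2]
    nlinarith
  · intro y hy
    have h1 := (abs_le.1 (hS hy).2.2.2.1).1
    simp only
    linarith
  · intro y hy
    have h1 := (abs_le.1 (hS' hy).2.2.2.1).2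
    simp only
    linarith

theorem disj_RR {t c b q s h w f co si : ℝ} (P : Par t c b q s) (hco : 0 < co) {i i' : ℕ}
    (hne : i ≠ i') {S S' : Set E3} (hS : S ⊆ SR t c b q s h w f co si i)
    (hS' : S' ⊆ SR t c b q s h w f co si i') : Disjoint (interior S) (interior S') := by
  rcases lt_or_gt_of_ne hne with h | h
  · exact SDisjB_RR_lt P hco h hS hS'
  · exact (SDisjB_RR_lt P hco h hS' hS).symm

theorem disj_R'R' {t c b q s h w f co si : ℝ} (P : Par t c b q s) (hco : 0 < co) {i i' : ℕ}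
    (hne : i ≠ i') {S S' : Set E3} (hS : S ⊆ SR' t c b q s h w f co si i)
    (hS' : S' ⊆ SR' t c b q s h w f co si i') : Disjoint (interior S) (interior S') := by
  rcases lt_or_gt_of_ne hne with h | h
  · exact SDisjB_RR'_lt P hco h hS hS'
  · exact (SDisjB_RR'_lt P hco h hS' hS).symm

theorem disj_RR' {t c b q s h w f co si : ℝ} (P : Par t c b q s) {i i' : ℕ}
    {S S' : Set E3} (hS : S ⊆ SR t c b q s h w f co si i)
    (hS' : S' ⊆ SR' t c b q s h w f co si i') : Disjoint (interior S) (interior S') := by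
  have hb := P.hb
  apply sep (fun y : E3 => (y 1 - w - t) - kper b q s (vv t c b f co si y))
    (EuclideanSpace.single (1 : Fin 3) (1 : ℝ))
  · intro y ε hε
    obtain ⟨h0, h1, h2⟩ := SDisjB_e1 y ε
    simp only [vv, h0, h1, h2]
    linarith
  · intro y hy
    have h1 := (hS hy).2.2.2.2
    simp only
    linarith
  · intro y hy
    have h1 := (hS' hy).2.2.2.2
    have h2 := kper_half (q := q) hb P.hs.le (vv t c b f co si y)
    simp only
    linarith

end Pool.CylS
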