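import Pool.Agent.W_0c5e58_h99.SProfI

/-!
# The reliefs `f_j`

`f_j` is the mean of `kper` over `[j W, (j+1) W]` plus `s W`.
`fj_ge`: the mean is at least `kper y - s W` because `kper` is `s`-Lipschitz and the interval has
length `W`.  `fj_le`: `kper ≤ s q`.  `fj_sum`: `W ∑ f_j = ∫ 0..nW kper + n s W^2`
(`intervalIntegral.sum_integral_adjacent_intervals`), and for `m = ⌈n W / b⌉₊` the integral is at
most `∫ 0..m b kper = m s q (b - q) ≤ (n W / b + 1) s q (b - q)`
(`kper ≥ 0`; `Function.Periodic.intervalIntegral_add_eq` and induction on `m`, or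
`sum_integral_adjacent_intervals` again).
-/

open MeasureTheory Metric Set Filter
open scoped Topology ENNReal

namespace Pool.CylS

open Pool.TC

private theorem SFj_len (t b s : ℝ) (j : ℕ) :
    ((j : ℝ) + 1) * Wd t b s - j * Wd t b s = Wd t b s := by ring

private theorem SFj_int {t c b q s : ℝ} (P : Par t c b q s) (x y : ℝ) :
    IntervalIntegrable (kper b q s) volume x y :=
  (kper_cont P.hb P.hs.le).intervalIntegrable x y

theorem fj_ge {t c b q s : ℝ} (P : Par t c b q s) (j : ℕ) {y : ℝ} (h1 : j * Wd t b s ≤ y)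
    (h2 : y ≤ (j + 1) * Wd t b s) : kper b q s y ≤ fj t b q s j := by
  have hW := P.W0
  have hlen := SFj_len t b s j
  have hle : (j : ℝ) * Wd t b s ≤ (j + 1) * Wd t b s := h1.trans h2
  have hmono : ∫ _x in ((j : ℝ) * Wd t b s)..((j + 1) * Wd t b s),
      (kper b q s y - s * Wd t b s) ≤
      ∫ x in ((j : ℝ) * Wd t b s)..((j + 1) * Wd t b s), kper b q s x := by
    refine intervalIntegral.integral_mono_on hle (by simp) (SFj_int P _ _) ?_
    intro x hx
    have h3 := kper_lip (q := q) P.hb P.hs.le y x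
    have h4 : |y - x| ≤ Wd t b s := by
      rw [abs_le]
      constructor <;> linarith [hx.1, hx.2]
    have h5 : s * |y - x| ≤ s * Wd t b s := mul_le_mul_of_nonneg_left h4 P.hs.le
    have h6 := le_abs_self (kper b q s y - kper b q s x)
    linarith
  rw [intervalIntegral.integral_const, hlen, smul_eq_mul] at hmono
  unfold fj
  have h7 : kper b q s y - s * Wd t b s ≤
      (∫ x in ((j : ℝ) * Wd t b s)..((j + 1) * Wd t b s), kper b q s x) / Wd t b s := by
    rw [le_div_iff₀ hW]
    linarith
  linarith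

theorem fj_nonneg {t c b q s : ℝ} (P : Par t c b q s) (j : ℕ) : 0 ≤ fj t b q s j := by
  have hW := P.W0
  have hlen := SFj_len t b s j
  unfold fj
  have h1 : 0 ≤ ∫ x in ((j : ℝ) * Wd t b s)..((j + 1) * Wd t b s), kper b q s x :=
    intervalIntegral.integral_nonneg (by linarith) fun x _ => kper_nonneg P.hb P.hq.le P.hs.le x
  have h2 := mul_pos P.hs hW
  have h3 := div_nonneg h1 hW.le
  linarith

theorem fj_le {t c b q s : ℝ} (P : Par t c b q s) (j : ℕ) :
    fj t b q s j ≤ s * q + s * Wd t b s := by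
  have hW := P.W0
  have hlen := SFj_len t b s j
  have hmono : (∫ x in ((j : ℝ) * Wd t b s)..((j + 1) * Wd t b s), kper b q s x) ≤
      ∫ _x in ((j : ℝ) * Wd t b s)..((j + 1) * Wd t b s), s * q := by
    refine intervalIntegral.integral_mono_on (by linarith) (SFj_int P _ _) (by simp) ?_
    intro x _
    exact kper_le P.hs.le x
  rw [intervalIntegral.integral_const, hlen, smul_eq_mul] at hmono
  unfold fj
  have h7 : (∫ x in ((j : ℝ) * Wd t b s)..((j + 1) * Wd t b s), kper b q s x) / Wd t b s ≤
      s * q := by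
    rw [div_le_iff₀ hW]
    linarith
  linarith

private theorem SFj_per {t c b q s : ℝ} (P : Par t c b q s) (m : ℕ) :
    ∫ y in (0 : ℝ)..(m * b), kper b q s y = m * (s * q * (b - q)) := by
  induction m with
  | zero => simp
  | succ m ih =>
    have e : ((m + 1 : ℕ) : ℝ) * b = m * b + b := by push_cast; ring
    rw [e, ← intervalIntegral.integral_add_adjacent_intervals (SFj_int P 0 (m * b))
      (SFj_int P (m * b) (m * b + b)), ih,
      (kper_periodic P.hb q s).intervalIntegral_add_eq (m * b) 0, zero_add,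
      kper_int P.hq P.hqb]
    push_cast
    ring

theorem fj_sum {t c b q s : ℝ} (P : Par t c b q s) (n : ℕ) :
    ∑ j ∈ Finset.range n, fj t b q s j ≤
      n * (s * q * (b - q) / b + s * Wd t b s) + s * q * (b - q) / Wd t b s := by
  have hW := P.W0
  have hb := P.hb
  have hq := P.hq
  have hs := P.hs
  have hbq : 0 < b - q := by linarith [P.hqb]
  have hc : 0 < s * q * (b - q) := by positivity
  have h1 : ∑ j ∈ Finset.range n, fj t b q s j =
      (∫ y in (0 : ℝ)..(n * Wd t b s), kper b q s y) / Wd t b s + n * (s * Wd t b s) := by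
    have h2 := intervalIntegral.sum_integral_adjacent_intervals (f := kper b q s)
      (μ := volume) (a := fun k : ℕ => (k : ℝ) * Wd t b s) (n := n)
      (fun k _ => SFj_int P _ _)
    simp only [Nat.cast_zero, zero_mul, Nat.cast_add, Nat.cast_one] at h2
    unfold fj
    rw [Finset.sum_add_distrib, ← Finset.sum_div, h2, Finset.sum_const, Finset.card_range,
      nsmul_eq_mul]
  set m : ℕ := ⌈(n : ℝ) * Wd t b s / b⌉₊ with hm
  have h3 : (n : ℝ) * Wd t b s ≤ m * b := by
    have := Nat.le_ceil ((n : ℝ) * Wd t b s / b)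
    rw [← hm] at this
    rwa [div_le_iff₀ hb] at this
  have h4 : (m : ℝ) ≤ (n : ℝ) * Wd t b s / b + 1 :=
    (Nat.ceil_lt_add_one (by positivity)).le
  have h5 : (∫ y in (0 : ℝ)..(n * Wd t b s), kper b q s y) ≤
      ((n : ℝ) * Wd t b s / b + 1) * (s * q * (b - q)) := by
    have h6 : (∫ y in (0 : ℝ)..(n * Wd t b s), kper b q s y) ≤
        ∫ y in (0 : ℝ)..(m * b), kper b q s y := by
      refine intervalIntegral.integral_mono_interval le_rfl (by positivity) h3 ?_
        (SFj_int P _ _)
      exact Filter.Eventually.of_forall fun x => kper_nonneg hb hq.le hs.le x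
    rw [SFj_per P m] at h6
    exact h6.trans (mul_le_mul_of_nonneg_right h4 hc.le)
  rw [h1]
  have h7 : (∫ y in (0 : ℝ)..(n * Wd t b s), kper b q s y) / Wd t b s ≤
      ((n : ℝ) * Wd t b s / b + 1) * (s * q * (b - q)) / Wd t b s :=
    div_le_div_of_nonneg_right h5 hW.le
  have h8 : ((n : ℝ) * Wd t b s / b + 1) * (s * q * (b - q)) / Wd t b s =
      n * (s * q * (b - q) / b) + s * q * (b - q) / Wd t b s := by
    field_simp
  rw [h8] at h7
  linarith

end Pool.CylS
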