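import Pool.Agent.W_0c5e58_h99.SDefs

/-!
# Isometries

`exists_iso`: for a matrix `M` with orthonormal columns (`∑ k, M k i * M k j = δ i j`) and a vector
`v` there is an isometry of `E3` onto itself with `g x k = ∑ l, M k l * x l + v k`.  Proof: use
`IsometryEquiv.mk'` with the inverse `y ↦ Mᵀ (y - v)` (`M Mᵀ = 1` follows from `Mᵀ M = 1`:
`Matrix.mul_eq_one_comm`), and `EuclideanSpace.dist_eq`; or `LinearIsometry` from the norm identity
and `LinearIsometry.toLinearIsometryEquiv rfl`, composed with a translation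
(`IsometryEquiv.addRight` or `AffineIsometryEquiv.constVAdd`).  The four special cases: matrices
with rows `(0,1,0),(1,0,0),(0,0,1)`; `(0,-1,0),(1,0,0),(0,0,1)`; `(-si,0,co),(0,1,0),(co,0,si)`;
`(si,0,co),(0,-1,0),(-co,0,si)`.
-/

open MeasureTheory Metric Set Filter
open scoped Topology ENNReal

namespace Pool.CylS

open Pool.TC

private theorem SIso_sq (M : Fin 3 → Fin 3 → ℝ)
    (hM : ∀ i j, ∑ k, M k i * M k j = if i = j then 1 else 0) (d : Fin 3 → ℝ) :
    ∑ k, (∑ l, M k l * d l) ^ 2 = ∑ l, d l ^ 2 := by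
  have h00 := hM 0 0
  have h11 := hM 1 1
  have h22 := hM 2 2
  have h01 := hM 0 1
  have h02 := hM 0 2
  have h12 := hM 1 2
  rw [if_pos rfl] at h00 h11 h22
  rw [if_neg (by decide)] at h01 h02 h12
  simp only [Fin.sum_univ_three] at *
  linear_combination (d 0) ^ 2 * h00 + (d 1) ^ 2 * h11 + (d 2) ^ 2 * h22 +
    2 * d 0 * d 1 * h01 + 2 * d 0 * d 2 * h02 + 2 * d 1 * d 2 * h12

theorem exists_iso (M : Fin 3 → Fin 3 → ℝ)
    (hM : ∀ i j, ∑ k, M k i * M k j = if i = j then 1 else 0) (v : Fin 3 → ℝ) :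
    ∃ g : E3 ≃ᵢ E3, ∀ x k, g x k = (∑ l, M k l * x l) + v k := by
  have hrow : ∀ i j, ∑ l, M i l * M j l = if i = j then 1 else 0 := by
    have h1 : (Matrix.of M).transpose * Matrix.of M = 1 := by
      ext i j
      rw [Matrix.mul_apply, Matrix.one_apply]
      exact hM i j
    rw [mul_eq_one_comm] at h1
    intro i j
    have h2 := congrFun (congrFun h1 i) j
    rw [Matrix.mul_apply, Matrix.one_apply] at h2
    exact h2
  let f : E3 → E3 := fun x => WithLp.toLp 2 fun k => (∑ l, M k l * x l) + v k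
  let g : E3 → E3 := fun y => WithLp.toLp 2 fun l => ∑ k, M k l * (y k - v k)
  have hf : ∀ x k, f x k = (∑ l, M k l * x l) + v k := fun _ _ => rfl
  have hg : ∀ y l, g y l = ∑ k, M k l * (y k - v k) := fun _ _ => rfl
  have hfg : ∀ y, f (g y) = y := by
    intro y
    ext k
    rw [hf]
    have h0 := hrow k 0
    have h1 := hrow k 1
    have h2 := hrow k 2
    simp only [hg]
    have h3 : ∑ l, M k l * ∑ j, M j l * (y j - v j) =
        ∑ j, (∑ l, M k l * M j l) * (y j - v j) := by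
      simp only [Finset.mul_sum, Finset.sum_mul]
      rw [Finset.sum_comm]
      exact Finset.sum_congr rfl fun j _ => Finset.sum_congr rfl fun l _ => by ring
    rw [h3]
    simp only [hrow]
    simp
  have hiso : Isometry f := by
    refine Isometry.of_dist_eq fun x y => ?_
    rw [EuclideanSpace.dist_eq, EuclideanSpace.dist_eq]
    congr 1
    have h1 := SIso_sq M hM (fun l => x l - y l)
    simp only [Real.dist_eq, sq_abs]
    rw [← h1]
    refine Finset.sum_congr rfl fun k _ => ?_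
    rw [hf, hf]
    congr 1
    simp only [mul_sub, Finset.sum_sub_distrib]
    ring
  exact ⟨IsometryEquiv.mk' f g hfg hiso, fun x k => hf x k⟩

theorem exA (t b h : ℝ) (i k : ℕ) : ∃ g, IsA t b h i k g := by
  obtain ⟨g, hg⟩ := exists_iso ![![0, 1, 0], ![1, 0, 0], ![0, 0, 1]]
    (by intro i j; fin_cases i <;> fin_cases j <;> simp [Fin.sum_univ_three])
    ![t, b * i, k * h]
  refine ⟨g, fun x => ⟨?_, ?_, ?_⟩⟩ <;> rw [hg] <;> simp [Fin.sum_univ_three]

theorem exA' (X t b h : ℝ) (i k : ℕ) : ∃ g, IsA' X t b h i k g := by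
  obtain ⟨g, hg⟩ := exists_iso ![![0, -1, 0], ![1, 0, 0], ![0, 0, 1]]
    (by intro i j; fin_cases i <;> fin_cases j <;> simp [Fin.sum_univ_three])
    ![X - t, b * i, k * h]
  refine ⟨g, fun x => ⟨?_, ?_, ?_⟩⟩ <;> rw [hg] <;> simp [Fin.sum_univ_three]
  ring

theorem exR (t c b w f : ℝ) {co si : ℝ} (hcs : co ^ 2 + si ^ 2 = 1) (i : ℕ) :
    ∃ g, IsR t c b w f co si i g := by
  obtain ⟨g, hg⟩ := exists_iso ![![-si, 0, co], ![0, 1, 0], ![co, 0, si]]
    (by
      intro i j
      fin_cases i <;> fin_cases j <;> simp [Fin.sum_univ_three] <;>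
        first | linear_combination hcs | ring)
    ![t + f + P0 t c b * si, w + t, P0 t c b + i * b / co]
  refine ⟨g, fun x => ⟨?_, ?_, ?_⟩⟩ <;> rw [hg] <;> simp [Fin.sum_univ_three] <;> ring

theorem exR' (t c b s w f : ℝ) {co si : ℝ} (hcs : co ^ 2 + si ^ 2 = 1) (i : ℕ) :
    ∃ g, IsR' t c b s w f co si i g := by
  obtain ⟨g, hg⟩ := exists_iso ![![si, 0, co], ![0, -1, 0], ![-co, 0, si]]
    (by
      intro i j
      fin_cases i <;> fin_cases j <;> simp [Fin.sum_univ_three] <;>
        first | linear_combination hcs | ring)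
    ![t + f + P0 t c b * si, w + t + s * b / 2, P0 t c b + (i + 1 / 2) * b / co]
  refine ⟨g, fun x => ⟨?_, ?_, ?_⟩⟩ <;> rw [hg] <;> simp [Fin.sum_univ_three] <;> ring

end Pool.CylS
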