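import Pool.Agent.W_0c5e58_h99.SDisjA
import Pool.Agent.W_0c5e58_h99.SDisjB
import Pool.Agent.W_0c5e58_h99.SIso
import Pool.Agent.W_0c5e58_h99.SFj
import Pool.Agent.W_0c5e58_h99.SBox

/-!
# The packing

Index type `ι = (Bool × (Fin NA × Fin M)) ⊕ (Σ j : Fin n, Bool × Fin (m j))` (with `m j` for
`j : Fin n`), `card ι = 2 NA M + ∑ j, 2 m j`.  `inl (false, a, k)`: `exA t b h (i₀ + a) k`;
`inl (true, a, k)`: `exA' (2 t + h) t b h (i₀ + a) k`; `inr ⟨j, false, i⟩`:
`exR t c b (j * Wd) (fj j) (co j, si j) i`; `inr ⟨j, true, i⟩`: `exR'`.  (`choose` from the four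
existence theorems.)  Images: `A_sub`, `A'_sub`, `R_sub`, `R'_sub`.  They are in
`bxx (2 t + h) (n Wd) Z`: `kper ≤ s q ≤ t + h` by `kper_le` and `2 s q ≤ h`; `b (i₀ + a) ± P0` is
in `[0, n Wd]`; `(k + 1) h ≤ M h ≤ Z`; strips: `(j + 1) Wd ≤ n Wd`, `fj_nonneg`,
`2 P0 + h + (i + 1) (b / co) ≤ 2 P0 + h + m j (b / co) ≤ Z`.
Pairwise disjoint interiors: the nine lemmas of SDisjA, SDisjB (`fj_ge` with `w = j Wd` gives the
hypothesis `hf`; `Disjoint.symm` for the other orders; two strips `j < j'`: `disj_SS`).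
Then `box_density` with `C = cyl (Kg ..) h`: compact (`cyl_compact`, `Kg_compact`), convex
(`cyl_convex`, `Kg_convex`), so the frontier is null (`Convex.addHaar_frontier`).
-/

open MeasureTheory Metric Set Filter
open scoped Topology ENNReal

namespace Pool.CylS

open Pool.TC

/-- numbers of rods, tilts and the height `Z` of the box -/
structure Cfg (t c b q s h : ℝ) (n i₀ NA M : ℕ) (Z : ℝ) (co si : ℕ → ℝ) (m : ℕ → ℕ) : Prop where
  hn : 0 < n
  hZ : 0 < Z
  hh : 2 * s * q ≤ h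
  lo : P0 t c b ≤ b * i₀
  hi : b * (i₀ + NA) + P0 t c b ≤ n * Wd t b s
  hM : M * h ≤ Z
  cs : ∀ j < n, co j ^ 2 + si j ^ 2 = 1
  co0 : ∀ j < n, 0 < co j
  si0 : ∀ j < n, 0 ≤ si j
  tilt : ∀ j < n, h * co j + 2 * P0 t c b * si j ≤ h - 2 * fj t b q s j
  hm : ∀ j < n, 2 * P0 t c b + h + m j * (b / co j) ≤ Z

/-- the index type -/
abbrev SPack_I (n NA M : ℕ) (m : ℕ → ℕ) : Type :=
  (Bool × (Fin NA × Fin M)) ⊕ (Σ j : Fin n, Bool × Fin (m j))

theorem SPack_card (n NA M : ℕ) (m : ℕ → ℕ) : Fintype.card (SPack_I n NA M m) =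
    2 * NA * M + ∑ j ∈ Finset.range n, 2 * m j := by
  simp only [SPack_I, Fintype.card_sum, Fintype.card_prod, Fintype.card_sigma, Fintype.card_bool,
    Fintype.card_fin]
  rw [Finset.sum_range (fun j => 2 * m j), mul_assoc]

/-- images in the box, slab rods -/
theorem SPack_inA {t c b q s h : ℝ} (P : Par t c b q s) {n i₀ NA M : ℕ} {Z : ℝ} {co si : ℕ → ℝ}
    {m : ℕ → ℕ} (C : Cfg t c b q s h n i₀ NA M Z co si m) (a : Fin NA) (k : Fin M) :
    SA t c b q s h (i₀ + a) k ⊆ bxx (2 * t + h) (n * Wd t b s) Z ∧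
    SA' (2 * t + h) t c b q s h (i₀ + a) k ⊆ bxx (2 * t + h) (n * Wd t b s) Z := by
  have hb := P.hb
  have hs := P.hs
  have hq := P.hq
  have ht := P.ht
  have hsq : 0 < s * q := mul_pos hs hq
  have hh := C.hh
  have h0 : 0 < h := by nlinarith
  have hlo := C.lo
  have hhi := C.hi
  have hM := C.hM
  have ha : ((a : ℕ) : ℝ) + 1 ≤ NA := by
    have := a.2
    exact_mod_cast this
  have ha0 : (0 : ℝ) ≤ ((a : ℕ) : ℝ) := Nat.cast_nonneg _
  have hk : ((k : ℕ) : ℝ) + 1 ≤ M := by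
    have := k.2
    exact_mod_cast this
  have hk0 : (0 : ℝ) ≤ ((k : ℕ) : ℝ) := Nat.cast_nonneg _
  have e1 : 0 ≤ b * ((a : ℕ) : ℝ) := by positivity
  have e2 : b * ((a : ℕ) : ℝ) + b ≤ b * NA := by nlinarith
  have e3 : (((k : ℕ) : ℝ) + 1) * h ≤ M * h := mul_le_mul_of_nonneg_right hk h0.le
  have e4 : 0 ≤ ((k : ℕ) : ℝ) * h := by positivity
  constructor
  · rintro y ⟨y1, y2, y3, y4, y5, _⟩
    have k1 := kper_le (b := b) (q := q) hs.le (y 1)
    rw [abs_le] at y3
    push_cast at y3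
    refine ⟨y1, by nlinarith, by nlinarith, by nlinarith, by linarith, by linarith⟩
  · rintro y ⟨y1, y2, y3, y4, y5, _⟩
    have k1 := kper_le (b := b) (q := q) hs.le (y 1)
    rw [abs_le] at y3
    push_cast at y3
    refine ⟨by nlinarith, by linarith, by nlinarith, by nlinarith, by linarith, by linarith⟩

/-- images in the box, strips -/
theorem SPack_inS {t c b q s h : ℝ} (P : Par t c b q s) {n i₀ NA M : ℕ} {Z : ℝ} {co si : ℕ → ℝ}
    {m : ℕ → ℕ} (C : Cfg t c b q s h n i₀ NA M Z co si m) (j : Fin n) (i : Fin (m j)) {y : E3}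
    (hy : y ∈ SS t b s h (((j : ℕ) : ℝ) * Wd t b s) (fj t b q s j)) (h0 : 0 ≤ y 2)
    (h2 : y 2 ≤ 2 * P0 t c b + h + (((i : ℕ) : ℝ) + 1) * (b / co j)) :
    y ∈ bxx (2 * t + h) (n * Wd t b s) Z := by
  obtain ⟨y1, y2, y3, y4⟩ := hy
  have ht := P.ht
  have hf := fj_nonneg P j
  have hW := P.W0
  have hj : ((j : ℕ) : ℝ) + 1 ≤ n := by
    have := j.2
    exact_mod_cast this
  have hj0 : (0 : ℝ) ≤ ((j : ℕ) : ℝ) := Nat.cast_nonneg _
  have hi : ((i : ℕ) : ℝ) + 1 ≤ m j := by
    have := i.2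
    exact_mod_cast this
  have e1 : (((j : ℕ) : ℝ) + 1) * Wd t b s ≤ n * Wd t b s := mul_le_mul_of_nonneg_right hj hW.le
  have e2 : 0 ≤ ((j : ℕ) : ℝ) * Wd t b s := by positivity
  have hbc : 0 ≤ b / co j := div_nonneg P.hb.le (C.co0 j j.2).le
  have e3 : (((i : ℕ) : ℝ) + 1) * (b / co j) ≤ m j * (b / co j) :=
    mul_le_mul_of_nonneg_right hi hbc
  have e4 := C.hm j j.2
  refine ⟨by linarith, by linarith, by linarith, by linarith, h0, by linarith⟩

theorem pack {t c b q s h : ℝ} (P : Par t c b q s) {n i₀ NA M : ℕ} {Z : ℝ} {co si : ℕ → ℝ}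
    {m : ℕ → ℕ} (C : Cfg t c b q s h n i₀ NA M Z co si m) :
    ((2 * NA * M + ∑ j ∈ Finset.range n, 2 * m j : ℕ) : ℝ≥0∞) * volume (cyl (Kg t c b q s) h) /
      ENNReal.ofReal ((2 * t + h) * (n * Wd t b s) * Z) ≤ packDensity (cyl (Kg t c b q s) h) := by
  have hb := P.hb
  have hs := P.hs
  have hq := P.hq
  have ht := P.ht
  have hsq : 0 < s * q := mul_pos hs hq
  have hh := C.hh
  have h0 : 0 < h := by nlinarith
  have hW := P.W0
  have hn : (0 : ℝ) < n := by exact_mod_cast C.hn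
  choose gA hgA using exA t b h
  choose gB hgB using exA' (2 * t + h) t b h
  choose gR hgR using fun (j : Fin n) (i : ℕ) =>
    exR t c b (((j : ℕ) : ℝ) * Wd t b s) (fj t b q s j) (C.cs j j.2) i
  choose gT hgT using fun (j : Fin n) (i : ℕ) =>
    exR' t c b s (((j : ℕ) : ℝ) * Wd t b s) (fj t b q s j) (C.cs j j.2) i
  have sA := fun i k => A_sub P (hgA i k)
  have sB := fun i k => A'_sub P (hgB i k)
  have sR := fun (j : Fin n) (i : ℕ) => R_sub P (hgR j i) (C.cs j j.2) (C.co0 j j.2) (C.si0 j j.2)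
    (C.tilt j j.2)
  have sT := fun (j : Fin n) (i : ℕ) => R'_sub P (hgT j i) (C.cs j j.2) (C.co0 j j.2)
    (C.si0 j j.2) (C.tilt j j.2)
  have sRS : ∀ (j : Fin n) (i : ℕ), gR j i '' cyl (Kg t c b q s) h ⊆
      SS t b s h (((j : ℕ) : ℝ) * Wd t b s) (fj t b q s j) := fun j i y hy => (sR j i hy).1
  have sTS : ∀ (j : Fin n) (i : ℕ), gT j i '' cyl (Kg t c b q s) h ⊆
      SS t b s h (((j : ℕ) : ℝ) * Wd t b s) (fj t b q s j) := fun j i y hy => (sT j i hy).1
  have hfj : ∀ j : Fin n, ∀ y, ((j : ℕ) : ℝ) * Wd t b s ≤ y →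
      y ≤ ((j : ℕ) : ℝ) * Wd t b s + Wd t b s → kper b q s y ≤ fj t b q s j := by
    intro j y h1 h2
    exact fj_ge P j h1 (by linarith)
  let g : SPack_I n NA M m → (E3 ≃ᵢ E3) := fun x => match x with
    | Sum.inl (false, a, k) => gA (i₀ + a) k
    | Sum.inl (true, a, k) => gB (i₀ + a) k
    | Sum.inr ⟨j, false, i⟩ => gR j i
    | Sum.inr ⟨j, true, i⟩ => gT j i
  have hstrip : ∀ j j' : Fin n, j < j' → ((j : ℕ) : ℝ) * Wd t b s + Wd t b s ≤
      ((j' : ℕ) : ℝ) * Wd t b s := by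
    intro j j' hjj
    have h1 : ((j : ℕ) : ℝ) + 1 ≤ ((j' : ℕ) : ℝ) := by
      have : (j : ℕ) < j' := hjj
      exact_mod_cast this
    nlinarith
  have hin : ∀ x, g x '' cyl (Kg t c b q s) h ⊆ bxx (2 * t + h) (n * Wd t b s) Z := by
    rintro (⟨β, a, k⟩ | ⟨j, β, i⟩)
    · cases β
      · exact (sA _ _).trans (SPack_inA P C a k).1
      · exact (sB _ _).trans (SPack_inA P C a k).2
    · cases β
      · intro y hy
        obtain ⟨h1, h2, h3, _⟩ := sR j i hy
        exact SPack_inS P C j i h1 h2 h3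
      · intro y hy
        obtain ⟨h1, h2, h3, _⟩ := sT j i hy
        exact SPack_inS P C j i h1 h2 h3
  have hd : Pairwise (fun x y => Disjoint (interior (g x '' cyl (Kg t c b q s) h))
      (interior (g y '' cyl (Kg t c b q s) h))) := by
    rintro (⟨β, a, k⟩ | ⟨j, β, i⟩) (⟨β', a', k'⟩ | ⟨j', β', i'⟩) hne
    · cases β <;> cases β'
      · refine disj_AA P h0 ?_ (sA _ _) (sA _ _)
        intro he
        apply hne
        rw [Prod.mk.injEq] at he
        have e1 : a = a' := Fin.ext (by omega)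
        have e2 : k = k' := Fin.ext he.2
        rw [e1, e2]
      · exact disj_AA' P hh (sA _ _) (sB _ _)
      · exact (disj_AA' P hh (sA _ _) (sB _ _)).symm
      · refine disj_A'A' P h0 ?_ (sB _ _) (sB _ _)
        intro he
        apply hne
        rw [Prod.mk.injEq] at he
        have e1 : a = a' := Fin.ext (by omega)
        have e2 : k = k' := Fin.ext he.2
        rw [e1, e2]
    · cases β <;> cases β'
      · exact disj_AS (hfj j') (sA _ _) (sRS _ _)
      · exact disj_AS (hfj j') (sA _ _) (sTS _ _)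
      · exact (disj_SA' (hfj j') (sRS _ _) (sB _ _)).symm
      · exact (disj_SA' (hfj j') (sTS _ _) (sB _ _)).symm
    · cases β <;> cases β'
      · exact (disj_AS (hfj j) (sA _ _) (sRS _ _)).symm
      · exact disj_SA' (hfj j) (sRS _ _) (sB _ _)
      · exact (disj_AS (hfj j) (sA _ _) (sTS _ _)).symm
      · exact disj_SA' (hfj j) (sTS _ _) (sB _ _)
    · rcases lt_trichotomy j j' with hjj | hjj | hjj
      · have hst := hstrip j j' hjj
        cases β <;> cases β'
        · exact disj_SS hst (sRS _ _) (sRS _ _)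
        · exact disj_SS hst (sRS _ _) (sTS _ _)
        · exact disj_SS hst (sTS _ _) (sRS _ _)
        · exact disj_SS hst (sTS _ _) (sTS _ _)
      · subst hjj
        cases β <;> cases β'
        · refine disj_RR P (C.co0 j j.2) ?_ (sR _ _) (sR _ _)
          intro he
          apply hne
          have e1 : i = i' := Fin.ext he
          rw [e1]
        · exact disj_RR' P (sR _ _) (sT _ _)
        · exact (disj_RR' P (sR _ _) (sT _ _)).symm
        · refine disj_R'R' P (C.co0 j j.2) ?_ (sT _ _) (sT _ _)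
          intro he
          apply hne
          have e1 : i = i' := Fin.ext he
          rw [e1]
      · have hst := hstrip j' j hjj
        cases β <;> cases β'
        · exact (disj_SS hst (sRS _ _) (sRS _ _)).symm
        · exact (disj_SS hst (sTS _ _) (sRS _ _)).symm
        · exact (disj_SS hst (sRS _ _) (sTS _ _)).symm
        · exact (disj_SS hst (sTS _ _) (sTS _ _)).symm
  have hKc := Kg_compact P
  have hc : IsCompact (cyl (Kg t c b q s) h) := cyl_compact hKc h
  have hcv : Convex ℝ (cyl (Kg t c b q s) h) := cyl_convex (Kg_convex P) h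
  have hfr : volume (frontier (cyl (Kg t c b q s) h)) = 0 :=
    Convex.addHaar_frontier (volume : Measure E3) hcv
  have key := box_density hc hfr (show 0 < 2 * t + h by linarith)
    (show 0 < n * Wd t b s by positivity) C.hZ g hin hd
  rw [SPack_card] at key
  exact key

end Pool.CylS
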