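import Pool.Agent.W_0c5e58_h99.SDefs

/-!
# The periodic profile

`dp b y = |y - b round (y/b)|` is the distance of `y` to `b ℤ` (`0 < b`).

* `dp_nonneg`, `dp_le : dp b y ≤ b / 2` (`abs_sub_round`).
* `dp_le_abs : dp b y ≤ |y - b * i|` for `i : ℤ` (`round_le : |x - round x| ≤ |x - z|`).
* `dp_lip : |dp b x - dp b y| ≤ |x - y|` (from `dp_le_abs`: `dp b x ≤ |x - b round (y/b)| ≤
  |x - y| + dp b y`, and symmetric).
* `dp_periodic : dp b (y + b) = dp b y` (`round_add_one`), `dp_neg` (from `dp_le_abs` twice).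
* `dp_half : b / 2 ≤ dp b v + dp b (b / 2 - v)`: with `m = round (v/b)`, `m' = round ((b/2 - v)/b)`:
  `|v - b m| + |b/2 - v - b m'| ≥ |b/2 - b (m + m')| = b |1/2 - (m + m')| ≥ b / 2`.
* consequences for `kper b q s y = s min q (b/2 - dp b y)`, `0 ≤ s`, `0 < q < b/2`.
-/

open MeasureTheory Metric Set Filter
open scoped Topology ENNReal

namespace Pool.CylS

open Pool.TC

theorem dp_nonneg (b y : ℝ) : 0 ≤ dp b y := abs_nonneg _

theorem dp_le_abs {b : ℝ} (hb : 0 < b) (y : ℝ) (i : ℤ) : dp b y ≤ |y - b * i| := by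
  have h := round_le (y / b) i
  have e : ∀ m : ℤ, |y - b * m| = b * |y / b - m| := by
    intro m
    rw [← abs_of_pos hb, ← abs_mul, abs_of_pos hb]
    congr 1
    field_simp
  unfold dp
  rw [e, e]
  exact mul_le_mul_of_nonneg_left h hb.le

theorem dp_le {b : ℝ} (hb : 0 < b) (y : ℝ) : dp b y ≤ b / 2 := by
  have h := abs_sub_round (y / b)
  have e : dp b y = b * |y / b - round (y / b)| := by
    unfold dp
    rw [← abs_of_pos hb, ← abs_mul, abs_of_pos hb]
    congr 1
    field_simp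
  rw [e]
  nlinarith

theorem dp_lip {b : ℝ} (hb : 0 < b) (x y : ℝ) : |dp b x - dp b y| ≤ |x - y| := by
  have key : ∀ u v : ℝ, dp b u - dp b v ≤ |u - v| := by
    intro u v
    have h1 := dp_le_abs hb u (round (v / b))
    have h2 : |u - b * (round (v / b) : ℤ)| ≤ |u - v| + |v - b * (round (v / b) : ℤ)| := by
      have := abs_add_le (u - v) (v - b * (round (v / b) : ℤ))
      simpa using this
    have h3 : dp b v = |v - b * (round (v / b) : ℤ)| := rfl
    rw [h3]
    linarith
  rw [abs_le]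
  have h1 := key x y
  have h2 := key y x
  rw [abs_sub_comm] at h2
  constructor <;> linarith

theorem dp_periodic {b : ℝ} (hb : 0 < b) (y : ℝ) : dp b (y + b) = dp b y := by
  unfold dp
  have h : (y + b) / b = y / b + 1 := by field_simp
  rw [h, round_add_one]
  push_cast
  congr 1
  ring

theorem dp_half {b : ℝ} (hb : 0 < b) (v : ℝ) : b / 2 ≤ dp b v + dp b (b / 2 - v) := by
  unfold dp
  set m := round (v / b) with hm
  set m' := round ((b / 2 - v) / b) with hm'
  have h1 := abs_add_le (v - b * m) (b / 2 - v - b * m')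
  have h2 : v - b * m + (b / 2 - v - b * m') = b * (1 / 2 - ((m + m' : ℤ) : ℝ)) := by
    push_cast
    ring
  rw [h2, abs_mul, abs_of_pos hb] at h1
  have h3 : (1 / 2 : ℝ) ≤ |1 / 2 - ((m + m' : ℤ) : ℝ)| := by
    rcases le_or_gt (m + m') 0 with h | h
    · have : ((m + m' : ℤ) : ℝ) ≤ 0 := by exact_mod_cast h
      exact le_trans (by linarith) (le_abs_self _)
    · have : (1 : ℝ) ≤ ((m + m' : ℤ) : ℝ) := by exact_mod_cast h
      exact le_trans (by linarith) (neg_le_abs _)
  nlinarith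

/-- (`dp_le`) -/
theorem kper_nonneg {b q s : ℝ} (hb : 0 < b) (hq : 0 ≤ q) (hs : 0 ≤ s) (y : ℝ) :
    0 ≤ kper b q s y := by
  have := dp_le hb y
  exact mul_nonneg hs (le_min hq (by linarith))

theorem kper_le {b q s : ℝ} (hs : 0 ≤ s) (y : ℝ) : kper b q s y ≤ s * q :=
  mul_le_mul_of_nonneg_left (min_le_left _ _) hs

/-- (`dp_lip`, `min` is 1-Lipschitz) -/
theorem kper_lip {b q s : ℝ} (hb : 0 < b) (hs : 0 ≤ s) (x y : ℝ) :
    |kper b q s x - kper b q s y| ≤ s * |x - y| := by
  unfold kper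
  rw [← mul_sub, abs_mul, abs_of_nonneg hs]
  refine mul_le_mul_of_nonneg_left ?_ hs
  refine le_trans (abs_min_sub_min_le_max _ _ _ _) ?_
  rw [sub_self, abs_zero]
  refine max_le (abs_nonneg _) ?_
  have h := dp_lip hb x y
  have e : b / 2 - dp b x - (b / 2 - dp b y) = -(dp b x - dp b y) := by ring
  rw [e, abs_neg]
  exact h

theorem kper_cont {b q s : ℝ} (hb : 0 < b) (hs : 0 ≤ s) : Continuous (kper b q s) := by
  have : LipschitzWith (Real.toNNReal s) (kper b q s) := by
    refine LipschitzWith.of_dist_le_mul fun x y => ?_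
    rw [Real.dist_eq, Real.dist_eq, Real.coe_toNNReal s hs]
    exact kper_lip hb hs x y
  exact this.continuous

/-- (`dp_periodic`) -/
theorem kper_periodic {b : ℝ} (hb : 0 < b) (q s : ℝ) : Function.Periodic (kper b q s) b := by
  intro y
  unfold kper
  rw [dp_periodic hb]

/-- (`dp_le_abs` for `y = p + b i`) -/
theorem kp_le_kper {b q s : ℝ} (hb : 0 < b) (hs : 0 ≤ s) (p : ℝ) (i : ℤ) :
    kp b q s p ≤ kper b q s (p + b * i) := by
  unfold kp kper
  refine mul_le_mul_of_nonneg_left (min_le_min le_rfl ?_) hs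
  have h := dp_le_abs hb (p + b * i) i
  rw [add_sub_cancel_right] at h
  linarith

/-- (`dp_half`: `kper v + kper (b/2 - v) ≤ s (b/2 - dp v) + s (b/2 - dp (b/2 - v)) ≤ s b / 2`) -/
theorem kper_half {b q s : ℝ} (hb : 0 < b) (hs : 0 ≤ s) (v : ℝ) :
    kper b q s v + kper b q s (b / 2 - v) ≤ s * b / 2 := by
  unfold kper
  have h := dp_half hb v
  have h1 : min q (b / 2 - dp b v) ≤ b / 2 - dp b v := min_le_right _ _
  have h2 : min q (b / 2 - dp b (b / 2 - v)) ≤ b / 2 - dp b (b / 2 - v) := min_le_right _ _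
  have h3 : s * (min q (b / 2 - dp b v) + min q (b / 2 - dp b (b / 2 - v))) ≤ s * (b / 2) :=
    mul_le_mul_of_nonneg_left (by linarith) hs
  linarith

end Pool.CylS
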