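import Pool.Agent.W_0c5e58_h99.SProf

/-!
# The integral of the periodic profile

`kper_int : ∫ 0..b kper = s q (b - q)`: by periodicity (`kper_periodic`,
`Function.Periodic.intervalIntegral_add_eq`) the integral is the one over `[-b/2, b/2]`, where
`dp b y = |y|` (`dp_le_abs` with `i = 0`, and `|y| ≤ |y - b i|` for every integer `i`, because
`|y| ≤ b / 2`); or on `[0, b]` `dp b y = min y (b - y)`.  Twice the integral over `[0, b/2]`: `s q`
on `[0, b/2 - q]` and `s (b/2 - y)` on `[b/2 - q, b/2]`: `2 (s q (b/2 - q) + s q^2 / 2) = s q (b - q)`.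
-/

open MeasureTheory Metric Set Filter
open scoped Topology ENNReal

namespace Pool.CylS

open Pool.TC

private theorem SProfI_kper {b q s : ℝ} (hb : 0 < b) {y : ℝ} (h0 : 0 ≤ y) (h1 : y ≤ b) :
    kper b q s y = s * min q |y - b / 2| := by
  have hd : dp b y = b / 2 - |y - b / 2| := by
    have e1 : dp b y ≤ y := by
      have := dp_le_abs hb y 0
      rwa [Int.cast_zero, mul_zero, sub_zero, abs_of_nonneg h0] at this
    have e2 : dp b y ≤ b - y := by
      have := dp_le_abs hb y 1
      rwa [Int.cast_one, mul_one, abs_sub_comm, abs_of_nonneg (by linarith)] at this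
    have e3 : y ≤ dp b y ∨ b - y ≤ dp b y := by
      unfold dp
      rcases le_or_gt (round (y / b)) 0 with h | h
      · left
        have h' : ((round (y / b) : ℤ) : ℝ) ≤ 0 := by exact_mod_cast h
        have h2 : b * (round (y / b) : ℤ) ≤ 0 := mul_nonpos_of_nonneg_of_nonpos hb.le h'
        have h3 := le_abs_self (y - b * (round (y / b) : ℤ))
        linarith
      · right
        have h' : (1 : ℝ) ≤ ((round (y / b) : ℤ) : ℝ) := by
          have : (1 : ℤ) ≤ round (y / b) := h
          exact_mod_cast this
        have h2 : b * 1 ≤ b * (round (y / b) : ℤ) := mul_le_mul_of_nonneg_left h' hb.le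
        have h3 := neg_le_abs (y - b * (round (y / b) : ℤ))
        linarith
    rcases le_total y (b / 2) with h | h
    · rw [abs_of_nonpos (by linarith)]
      rcases e3 with e3 | e3 <;> linarith
    · rw [abs_of_nonneg (by linarith)]
      rcases e3 with e3 | e3 <;> linarith
  unfold kper
  rw [hd]
  congr 2
  ring

theorem kper_int {b q s : ℝ} (hq : 0 < q) (hqb : q < b / 2) :
    ∫ y in (0 : ℝ)..b, kper b q s y = s * q * (b - q) := by
  have hb : 0 < b := by linarith
  have h1 : ∫ y in (0 : ℝ)..b, kper b q s y = ∫ y in (0 : ℝ)..b, s * min q |y - b / 2| := by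
    apply intervalIntegral.integral_congr
    intro y hy
    rw [uIcc_of_le hb.le] at hy
    exact SProfI_kper hb hy.1 hy.2
  rw [h1]
  have h2 : ∫ y in (0 : ℝ)..b, s * min q |y - b / 2| =
      ∫ u in (0 - b / 2)..(b - b / 2), s * min q |u| :=
    intervalIntegral.integral_comp_sub_right (fun u => s * min q |u|) (b / 2)
  rw [h2]
  have hc : Continuous fun u : ℝ => s * min q |u| := by fun_prop
  have hii : ∀ x y : ℝ, IntervalIntegrable (fun u : ℝ => s * min q |u|) volume x y :=
    fun x y => hc.intervalIntegrable x y
  have e1 : (0 : ℝ) - b / 2 = -(b / 2) := by ring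
  have e2 : b - b / 2 = b / 2 := by ring
  rw [e1, e2, ← intervalIntegral.integral_add_adjacent_intervals (hii (-(b / 2)) (-q)) (hii (-q) _),
    ← intervalIntegral.integral_add_adjacent_intervals (hii (-q) 0) (hii 0 _),
    ← intervalIntegral.integral_add_adjacent_intervals (hii 0 q) (hii q _)]
  have i1 : ∫ u in (-(b / 2))..(-q), s * min q |u| = ∫ _u in (-(b / 2))..(-q), s * q := by
    apply intervalIntegral.integral_congr
    intro u hu
    rw [uIcc_of_le (by linarith)] at hu
    show s * min q |u| = s * q
    rw [min_eq_left]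
    rw [abs_of_nonpos (by linarith [hu.2])]
    linarith [hu.2]
  have i2 : ∫ u in (-q)..0, s * min q |u| = ∫ u in (-q)..0, s * (-u) := by
    apply intervalIntegral.integral_congr
    intro u hu
    rw [uIcc_of_le (by linarith)] at hu
    show s * min q |u| = s * (-u)
    rw [abs_of_nonpos hu.2, min_eq_right]
    linarith [hu.1]
  have i3 : ∫ u in (0 : ℝ)..q, s * min q |u| = ∫ u in (0 : ℝ)..q, s * u := by
    apply intervalIntegral.integral_congr
    intro u hu
    rw [uIcc_of_le hq.le] at hu
    show s * min q |u| = s * u
    rw [abs_of_nonneg hu.1, min_eq_right hu.2]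
  have i4 : ∫ u in q..(b / 2), s * min q |u| = ∫ _u in q..(b / 2), s * q := by
    apply intervalIntegral.integral_congr
    intro u hu
    rw [uIcc_of_le hqb.le] at hu
    show s * min q |u| = s * q
    rw [min_eq_left]
    rw [abs_of_nonneg (by linarith [hu.1])]
    exact hu.1
  rw [i1, i2, i3, i4, intervalIntegral.integral_const, intervalIntegral.integral_const,
    intervalIntegral.integral_const_mul, intervalIntegral.integral_const_mul,
    intervalIntegral.integral_neg, integral_id, integral_id, smul_eq_mul, smul_eq_mul]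
  ring

end Pool.CylS
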