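import Pool.Agent.W_0c5e58_h99.SProf
import Pool.Agent.W_0c5e58_h99.SBody

/-!
# The regions of the rods

`SA`, `SA'`: regions of the rods of the left and right slab, `SR`, `SR'`: regions of the tilted
rods of the first and second kind in a strip.  `vv` is the coordinate orthogonal to the tilted
rods.

`A_sub`: `y = g x`, `x` in the cylinder: `y 0 - t = x 1`, `y 1 - b i = x 0`, `y 2 - k h = x 2`;
`kp (x 0) ≤ kper (x 0 + b i)` (`kp_le_kper`), `|x 0| ≤ P0` (`Kg_zero_le` for `pr x`).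
`R_sub`: `vv y = x 0 + b i` (`co^2 + si^2 = 1`), `y 1 - w - t = x 1`;
`y 0 = t + f + P0 si + x 2 co - x 0 si` is between `t + f` and `t + f + 2 P0 si + h co ≤ t + h - f`;
`y 1 ≤ w + t + s q ≤ w + Wd`; `y 2 ≥ P0 + x 0 co ≥ 0` (`co ≤ 1`), `y 2 ≤ 2 P0 + h + i b / co`.
`R'_sub`: `vv y = b i + b/2 - x 0`, `s b / 2 - (y 1 - w - t) = x 1`, and
`kp (x 0) ≤ kper (x 0 + b (-i)) = kper (b/2 - vv y)`.
-/

open MeasureTheory Metric Set Filter
open scoped Topology ENNReal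

namespace Pool.CylS

open Pool.TC

/-- the coordinate orthogonal to the tilted rods -/
noncomputable def vv (t c b f co si : ℝ) (y : E3) : ℝ :=
  (y 2 - P0 t c b) * co - (y 0 - (t + f + P0 t c b * si)) * si

/-- region of a rod of the left slab -/
def SA (t c b q s h : ℝ) (i k : ℕ) : Set E3 :=
  {y | 0 ≤ y 0 ∧ y 0 ≤ t + kper b q s (y 1) ∧ |y 1 - b * i| ≤ P0 t c b ∧ k * h ≤ y 2 ∧
    y 2 ≤ (k + 1) * h ∧ |y 1 - b * i - c * (y 0 - t)| ≤ b / 2}

/-- region of a rod of the right slab -/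
def SA' (X t c b q s h : ℝ) (i k : ℕ) : Set E3 :=
  {y | 0 ≤ X - y 0 ∧ X - y 0 ≤ t + kper b q s (y 1) ∧ |y 1 - b * i| ≤ P0 t c b ∧ k * h ≤ y 2 ∧
    y 2 ≤ (k + 1) * h ∧ |y 1 - b * i - c * (X - y 0 - t)| ≤ b / 2}

/-- region of a strip between the slabs -/
def SS (t b s h w f : ℝ) : Set E3 :=
  {y | t + f ≤ y 0 ∧ y 0 ≤ t + h - f ∧ w ≤ y 1 ∧ y 1 ≤ w + Wd t b s}

/-- region of a tilted rod, first kind -/
def SR (t c b q s h w f co si : ℝ) (i : ℕ) : Set E3 :=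
  {y | y ∈ SS t b s h w f ∧ 0 ≤ y 2 ∧ y 2 ≤ 2 * P0 t c b + h + (i + 1) * (b / co) ∧
    |vv t c b f co si y - b * i - c * (y 1 - w - t)| ≤ b / 2 ∧
    y 1 - w - t ≤ kper b q s (vv t c b f co si y)}

/-- region of a tilted rod, second kind -/
def SR' (t c b q s h w f co si : ℝ) (i : ℕ) : Set E3 :=
  {y | y ∈ SS t b s h w f ∧ 0 ≤ y 2 ∧ y 2 ≤ 2 * P0 t c b + h + (i + 1) * (b / co) ∧
    |b * i + b / 2 - vv t c b f co si y - c * (s * b / 2 - (y 1 - w - t))| ≤ b / 2 ∧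
    s * b / 2 - (y 1 - w - t) ≤ kper b q s (b / 2 - vv t c b f co si y)}

theorem SSets_co {co si : ℝ} (hcs : co ^ 2 + si ^ 2 = 1) (hco : 0 < co) (hsi : 0 ≤ si) :
    co ≤ 1 ∧ si ≤ 1 := by
  constructor
  · nlinarith
  · nlinarith

theorem SSets_zero {t c b q s h : ℝ} (P : Par t c b q s) {x : E3}
    (hx : x ∈ cyl (Kg t c b q s) h) : |x 0| ≤ P0 t c b :=
  Kg_zero_le P hx.1

theorem SSets_sb {t c b q s h : ℝ} (P : Par t c b q s) {x : E3}
    (hx : x ∈ cyl (Kg t c b q s) h) : x 1 ≤ s * b / 2 := by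
  have h1 : x 1 ≤ s * q := Kg_one_le P hx.1
  have h2 : s * q ≤ s * (b / 2) := mul_le_mul_of_nonneg_left P.hqb.le P.hs.le
  linarith

theorem SSets_kp {b q s : ℝ} (hb : 0 < b) (hs : 0 ≤ s) {p r y : ℝ} (i : ℤ)
    (h : r ≤ kp b q s p) (e : y = p + b * i) : r ≤ kper b q s y := by
  rw [e]
  exact h.trans (kp_le_kper hb hs p i)

theorem A_sub {t c b q s h : ℝ} (P : Par t c b q s) {i k : ℕ} {g : E3 ≃ᵢ E3}
    (hg : IsA t b h i k g) : g '' cyl (Kg t c b q s) h ⊆ SA t c b q s h i k := by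
  rintro y ⟨x, hx, rfl⟩
  obtain ⟨e0, e1, e2⟩ := hg x
  have hz := SSets_zero P hx
  obtain ⟨⟨h1, h2, h3⟩, h4, h5⟩ := mem_cylK.1 hx
  refine ⟨?_, ?_, ?_, ?_, ?_, ?_⟩
  · rw [e0]
    linarith
  · have := SSets_kp P.hb P.hs.le (i : ℤ) h3 (y := x 0 + b * i) (by push_cast; ring)
    rw [e0, e1]
    linarith
  · rw [e1, add_sub_cancel_right]
    exact hz
  · rw [e2]
    linarith
  · rw [e2]
    linarith
  · rw [e0, e1, add_sub_cancel_right, add_sub_cancel_right]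
    exact h2

theorem A'_sub {X t c b q s h : ℝ} (P : Par t c b q s) {i k : ℕ} {g : E3 ≃ᵢ E3}
    (hg : IsA' X t b h i k g) : g '' cyl (Kg t c b q s) h ⊆ SA' X t c b q s h i k := by
  rintro y ⟨x, hx, rfl⟩
  obtain ⟨e0, e1, e2⟩ := hg x
  have hz := SSets_zero P hx
  obtain ⟨⟨h1, h2, h3⟩, h4, h5⟩ := mem_cylK.1 hx
  have e0' : X - g x 0 = x 1 + t := by
    rw [e0]
    ring
  refine ⟨?_, ?_, ?_, ?_, ?_, ?_⟩
  · rw [e0']
    linarith
  · have := SSets_kp P.hb P.hs.le (i : ℤ) h3 (y := x 0 + b * i) (by push_cast; ring)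
    rw [e0', e1]
    linarith
  · rw [e1, add_sub_cancel_right]
    exact hz
  · rw [e2]
    linarith
  · rw [e2]
    linarith
  · rw [e0', e1, add_sub_cancel_right, add_sub_cancel_right]
    exact h2

theorem R_sub {t c b q s h w f co si : ℝ} (P : Par t c b q s) {i : ℕ} {g : E3 ≃ᵢ E3}
    (hg : IsR t c b w f co si i g) (hcs : co ^ 2 + si ^ 2 = 1) (hco : 0 < co) (hsi : 0 ≤ si)
    (hf : h * co + 2 * P0 t c b * si ≤ h - 2 * f) :
    g '' cyl (Kg t c b q s) h ⊆ SR t c b q s h w f co si i := by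
  rintro y ⟨x, hx, rfl⟩
  obtain ⟨e0, e1, e2⟩ := hg x
  obtain ⟨z1, z2⟩ := abs_le.1 (SSets_zero P hx)
  have hsb := SSets_sb P hx
  obtain ⟨hco1, hsi1⟩ := SSets_co hcs hco hsi
  obtain ⟨⟨h1, h2, h3⟩, h4, h5⟩ := mem_cylK.1 hx
  have hP := P.P00
  have ht := P.ht
  have hh : 0 ≤ h := h4.trans h5
  have a1 : 0 ≤ x 2 * co := mul_nonneg h4 hco.le
  have a2 : x 2 * co ≤ h * co := mul_le_mul_of_nonneg_right h5 hco.le
  have a3 : x 0 * si ≤ P0 t c b * si := mul_le_mul_of_nonneg_right z2 hsi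
  have a4 : -P0 t c b * si ≤ x 0 * si := mul_le_mul_of_nonneg_right z1 hsi
  have a5 : 0 ≤ x 2 * si := mul_nonneg h4 hsi
  have a6 : x 2 * si ≤ h * 1 := mul_le_mul h5 hsi1 hsi hh
  have a7 : x 0 * co ≤ P0 t c b * co := mul_le_mul_of_nonneg_right z2 hco.le
  have a8 : -P0 t c b * co ≤ x 0 * co := mul_le_mul_of_nonneg_right z1 hco.le
  have a9 : P0 t c b * co ≤ P0 t c b * 1 := mul_le_mul_of_nonneg_left hco1 hP.le
  have b1 : 0 ≤ b / co := div_nonneg P.hb.le hco.le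
  have b2 : (i : ℝ) * b / co = i * (b / co) := mul_div_assoc _ _ _
  have b3 : 0 ≤ (i : ℝ) * (b / co) := mul_nonneg (Nat.cast_nonneg i) b1
  have hv : vv t c b f co si (g x) = x 0 + b * i := by
    unfold vv
    rw [e0, e2]
    have : (P0 t c b + x 2 * si + x 0 * co + i * b / co - P0 t c b) * co -
        (t + f + P0 t c b * si + x 2 * co - x 0 * si - (t + f + P0 t c b * si)) * si =
        x 0 * (co ^ 2 + si ^ 2) + i * b * (co / co) := by ring
    rw [this, hcs, div_self hco.ne']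
    ring
  have hy : g x 1 - w - t = x 1 := by
    rw [e1]
    ring
  refine ⟨⟨?_, ?_, ?_, ?_⟩, ?_, ?_, ?_, ?_⟩
  · rw [e0]
    linarith
  · rw [e0]
    linarith
  · rw [e1]
    linarith
  · rw [e1]
    unfold Wd
    linarith
  · rw [e2, b2]
    linarith
  · rw [e2, b2, add_mul, one_mul]
    linarith
  · rw [hv, hy, add_sub_cancel_right]
    exact h2
  · rw [hv, hy]
    exact SSets_kp P.hb P.hs.le (i : ℤ) h3 (by push_cast; ring)

theorem R'_sub {t c b q s h w f co si : ℝ} (P : Par t c b q s) {i : ℕ} {g : E3 ≃ᵢ E3}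
    (hg : IsR' t c b s w f co si i g) (hcs : co ^ 2 + si ^ 2 = 1) (hco : 0 < co) (hsi : 0 ≤ si)
    (hf : h * co + 2 * P0 t c b * si ≤ h - 2 * f) :
    g '' cyl (Kg t c b q s) h ⊆ SR' t c b q s h w f co si i := by
  rintro y ⟨x, hx, rfl⟩
  obtain ⟨e0, e1, e2⟩ := hg x
  obtain ⟨z1, z2⟩ := abs_le.1 (SSets_zero P hx)
  have hsb := SSets_sb P hx
  obtain ⟨hco1, hsi1⟩ := SSets_co hcs hco hsi
  obtain ⟨⟨h1, h2, h3⟩, h4, h5⟩ := mem_cylK.1 hx
  have hP := P.P00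
  have ht := P.ht
  have hh : 0 ≤ h := h4.trans h5
  have a1 : 0 ≤ x 2 * co := mul_nonneg h4 hco.le
  have a2 : x 2 * co ≤ h * co := mul_le_mul_of_nonneg_right h5 hco.le
  have a3 : x 0 * si ≤ P0 t c b * si := mul_le_mul_of_nonneg_right z2 hsi
  have a4 : -P0 t c b * si ≤ x 0 * si := mul_le_mul_of_nonneg_right z1 hsi
  have a5 : 0 ≤ x 2 * si := mul_nonneg h4 hsi
  have a6 : x 2 * si ≤ h * 1 := mul_le_mul h5 hsi1 hsi hh
  have a7 : x 0 * co ≤ P0 t c b * co := mul_le_mul_of_nonneg_right z2 hco.le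
  have a8 : -P0 t c b * co ≤ x 0 * co := mul_le_mul_of_nonneg_right z1 hco.le
  have a9 : P0 t c b * co ≤ P0 t c b * 1 := mul_le_mul_of_nonneg_left hco1 hP.le
  have b1 : 0 ≤ b / co := div_nonneg P.hb.le hco.le
  have b2 : ((i : ℝ) + 1 / 2) * b / co = i * (b / co) + 1 / 2 * (b / co) := by ring
  have b3 : 0 ≤ (i : ℝ) * (b / co) := mul_nonneg (Nat.cast_nonneg i) b1
  have hsb0 : 0 ≤ s * b / 2 := by
    have := mul_pos P.hs P.hb
    linarith
  have hv : vv t c b f co si (g x) = b * i + b / 2 - x 0 := by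
    unfold vv
    rw [e0, e2]
    have : (P0 t c b + x 2 * si - x 0 * co + (i + 1 / 2) * b / co - P0 t c b) * co -
        (t + f + P0 t c b * si + x 2 * co + x 0 * si - (t + f + P0 t c b * si)) * si =
        -(x 0 * (co ^ 2 + si ^ 2)) + (i + 1 / 2) * b * (co / co) := by ring
    rw [this, hcs, div_self hco.ne']
    ring
  have hy : s * b / 2 - (g x 1 - w - t) = x 1 := by
    rw [e1]
    ring
  refine ⟨⟨?_, ?_, ?_, ?_⟩, ?_, ?_, ?_, ?_⟩
  · rw [e0]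
    linarith
  · rw [e0]
    linarith
  · rw [e1]
    linarith
  · rw [e1]
    unfold Wd
    linarith
  · rw [e2, b2]
    linarith
  · rw [e2, b2, add_mul, one_mul]
    linarith
  · rw [hv, hy]
    have : b * i + b / 2 - (b * i + b / 2 - x 0) - c * x 1 = x 0 - c * x 1 := by ring
    rw [this]
    exact h2
  · rw [hv, hy]
    exact SSets_kp P.hb P.hs.le (-(i : ℤ)) h3 (by push_cast; ring)

end Pool.CylS
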