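import Pool.Agent.W_0c5e58_h99.SDefs

/-!
# A body which is a union of copies

`split_le`: if `U` is the union of the copies `g i '' C`, `i : ι`, with pairwise disjoint interiors,
then `packDensity U ≤ packDensity C`.  Proof (`sSup_le`): let `P` be a packing of copies of `U`,
choose for every `A ∈ P` an isometry `γ A` with `A = γ A '' U`, and take
`P' = {B | ∃ A ∈ P, ∃ i, B = γ A '' (g i '' C)}`.  `⋃₀ P' = ⋃₀ P`, so it has the same limsup.
Two different members of `P'`: if they come from the same `A`, then `i ≠ j`, and the interiors of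
`γ '' (g i '' C)`, `γ '' (g j '' C)` are the images of the interiors
(`IsometryEquiv.toHomeomorph`, `Homeomorph.image_interior`); if they come from `A ≠ A'`, then they
are contained in `A`, `A'` (`interior_mono`).  `γ A '' (g i '' C) = (g i).trans (γ A) '' C`.
-/

open MeasureTheory Metric Set Filter
open scoped Topology ENNReal

namespace Pool.CylS

open Pool.TC

theorem SSplit_image_interior {n : ℕ}
    (γ : EuclideanSpace ℝ (Fin n) ≃ᵢ EuclideanSpace ℝ (Fin n))
    (S : Set (EuclideanSpace ℝ (Fin n))) : interior (γ '' S) = γ '' interior S :=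
  (γ.toHomeomorph.image_interior S).symm

theorem split_le {n : ℕ} {C U : Set (EuclideanSpace ℝ (Fin n))} {ι : Type}
    (g : ι → EuclideanSpace ℝ (Fin n) ≃ᵢ EuclideanSpace ℝ (Fin n)) (hU : U = ⋃ i, g i '' C)
    (hd : Pairwise (fun i j => Disjoint (interior (g i '' C)) (interior (g j '' C)))) :
    packDensity U ≤ packDensity C := by
  unfold packDensity
  apply sSup_le
  rintro d ⟨P, hP, hPd, rfl⟩
  choose γ hγ using hP
  have hsub : ∀ A (hA : A ∈ P) (i : ι), γ A hA '' (g i '' C) ⊆ A := by
    intro A hA i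
    conv_rhs => rw [hγ A hA]
    apply image_mono
    rw [hU]
    exact subset_iUnion (fun i => g i '' C) i
  apply le_sSup
  refine ⟨{B | ∃ A, ∃ hA : A ∈ P, ∃ i, B = γ A hA '' (g i '' C)}, ?_, ?_, ?_⟩
  · rintro B ⟨A, hA, i, rfl⟩
    refine ⟨(g i).trans (γ A hA), ?_⟩
    rw [image_image]
    rfl
  · rintro B ⟨A, hA, i, rfl⟩ B' ⟨A', hA', j, rfl⟩ hne
    by_cases h : A = A'
    · subst h
      have hij : i ≠ j := by
        rintro rfl
        exact hne rfl
      rw [SSplit_image_interior (γ A hA), SSplit_image_interior (γ A hA')]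
      exact disjoint_image_of_injective (γ A hA).injective (hd hij)
    · exact (hPd hA hA' h).mono (interior_mono (hsub A hA i)) (interior_mono (hsub A' hA' j))
  · have hun : ⋃₀ {B | ∃ A, ∃ hA : A ∈ P, ∃ i, B = γ A hA '' (g i '' C)} = ⋃₀ P := by
      apply Subset.antisymm
      · rintro x ⟨B, ⟨A, hA, i, rfl⟩, hx⟩
        exact ⟨A, hA, hsub A hA i hx⟩
      · rintro x ⟨A, hA, hx⟩
        have hx' : x ∈ γ A hA '' U := by
          rw [← hγ A hA]; exact hx
        obtain ⟨y, hy, rfl⟩ := hx'
        rw [hU, mem_iUnion] at hy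
        obtain ⟨i, hi⟩ := hy
        exact ⟨_, ⟨A, hA, i, rfl⟩, ⟨y, hi, rfl⟩⟩
    rw [hun]

end Pool.CylS
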